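import Pool.Agent.Lib.MP_2a35bd_al.Defs

/-!
Basic tools: substitution endomorphisms of `R` and `S` that kill variables, evaluation maps,
primality of the variables.
-/

namespace Pool.Agent.Lib.MP_2a35bd_al

open MvPolynomial

variable {k : Type*} [Field k]

/-- Kill the variables of `R` in `A`. -/
noncomputable def killR (A : Fin 3 → Bool) : R k →+* R k :=
  eval₂Hom C (fun i => if A i then 0 else X i)

/-- Kill the variables of `R` in `A` and the variables `tᵢ` in `B`. -/
noncomputable def killS (A B : Fin 3 → Bool) : S k →+* S k :=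
  eval₂Hom ((C : R k →+* S k).comp (killR A)) (fun i => if B i then 0 else X i)

@[simp] lemma killR_X (A : Fin 3 → Bool) (i : Fin 3) :
    killR A (X i : R k) = if A i then 0 else X i := by simp [killR]

@[simp] lemma killR_C (A : Fin 3 → Bool) (a : k) : killR A (C a : R k) = C a := by simp [killR]

@[simp] lemma killS_X (A B : Fin 3 → Bool) (i : Fin 3) :
    killS A B (X i : S k) = if B i then 0 else X i := by simp [killS]

@[simp] lemma killS_C (A B : Fin 3 → Bool) (a : R k) :
    killS A B (C a : S k) = C (killR A a) := by simp [killS]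

lemma sub_killR_mem (A : Fin 3 → Bool) (J : Ideal (R k)) (h : ∀ i, A i → (X i : R k) ∈ J)
    (p : R k) : p - killR A p ∈ J := by
  have : (Ideal.Quotient.mk J).comp (killR A) = Ideal.Quotient.mk J := by
    apply MvPolynomial.ringHom_ext
    · intro a; simp
    · intro i
      by_cases hi : A i
      · simp [hi, Ideal.Quotient.eq_zero_iff_mem.2 (h i hi)]
      · simp [hi]
  rw [← Ideal.Quotient.eq]
  exact (congrArg (fun φ => φ p) this).symm

lemma sub_killS_mem (A B : Fin 3 → Bool) (J : Ideal (S k))
    (h : ∀ i, A i → (C (X i) : S k) ∈ J) (h' : ∀ i, B i → (X i : S k) ∈ J)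
    (p : S k) : p - killS A B p ∈ J := by
  have : (Ideal.Quotient.mk J).comp (killS A B) = Ideal.Quotient.mk J := by
    apply MvPolynomial.ringHom_ext
    · intro a
      have h1 : a - killR A a ∈ J.comap (C : R k →+* S k) := sub_killR_mem A _ h a
      rw [Ideal.mem_comap, map_sub] at h1
      simp only [RingHom.comp_apply, killS_C]
      exact (Ideal.Quotient.eq.2 h1).symm
    · intro i
      by_cases hi : B i
      · simp [hi, Ideal.Quotient.eq_zero_iff_mem.2 (h' i hi)]
      · simp [hi]
  rw [← Ideal.Quotient.eq]
  exact (congrArg (fun φ => φ p) this).symm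

/-- Evaluation of `S` in a commutative `k`-algebra. -/
noncomputable def evS {A : Type*} [CommRing A] [Algebra k A] (a b : Fin 3 → A) : S k →+* A :=
  eval₂Hom (eval₂Hom (algebraMap k A) a) b

@[simp] lemma evS_X {A : Type*} [CommRing A] [Algebra k A] (a b : Fin 3 → A) (i : Fin 3) :
    evS a b (X i : S k) = b i := by simp [evS]

@[simp] lemma evS_CX {A : Type*} [CommRing A] [Algebra k A] (a b : Fin 3 → A) (i : Fin 3) :
    evS a b (C (X i) : S k) = a i := by simp [evS]

lemma prime_CX (i : Fin 3) : Prime (C (X i) : S k) :=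
  (MvPolynomial.prime_C_iff (Fin 3)).2 X_prime

lemma prime_T (i : Fin 3) : Prime (X i : S k) := X_prime

/-- An element is not divisible by `p` if some evaluation kills `p` but not the element. -/
lemma not_dvd_of_ev {A B : Type*} [CommRing A] [CommRing B] (φ : A →+* B) {p w : A}
    (hp : φ p = 0) (hw : φ w ≠ 0) : ¬ p ∣ w := by
  rintro ⟨c, rfl⟩
  simp [hp] at hw

end Pool.Agent.Lib.MP_2a35bd_al
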