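import Pool.Agent.Lib.MP_2a35bd_al.Defs

/-!
Closure properties of bihomogeneity.
-/

namespace Pool.Agent.Lib.MP_2a35bd_al

open MvPolynomial

variable {k : Type*} [Field k]

lemma IsBihom.zero (p q : ℕ) : IsBihom (0 : S k) p q :=
  ⟨isHomogeneous_zero _ _ _, fun _ => by simpa using isHomogeneous_zero _ _ _⟩

lemma IsBihom.add {F G : S k} {p q : ℕ} (hF : IsBihom F p q) (hG : IsBihom G p q) :
    IsBihom (F + G) p q :=
  ⟨hF.1.add hG.1, fun m => by rw [coeff_add]; exact (hF.2 m).add (hG.2 m)⟩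

lemma IsBihom.neg {F : S k} {p q : ℕ} (hF : IsBihom F p q) : IsBihom (-F) p q :=
  ⟨hF.1.neg, fun m => by rw [coeff_neg]; exact (hF.2 m).neg⟩

lemma IsBihom.sub {F G : S k} {p q : ℕ} (hF : IsBihom F p q) (hG : IsBihom G p q) :
    IsBihom (F - G) p q := by
  rw [sub_eq_add_neg]; exact hF.add hG.neg

lemma IsBihom.mul {F G : S k} {p q p' q' : ℕ} (hF : IsBihom F p q) (hG : IsBihom G p' q') :
    IsBihom (F * G) (p + p') (q + q') := by
  classical
  refine ⟨hF.1.mul hG.1, fun m => ?_⟩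
  rw [coeff_mul]
  exact IsHomogeneous.sum _ _ _ fun a _ => (hF.2 _).mul (hG.2 _)

lemma IsBihom.C {a : R k} {p : ℕ} (ha : a.IsHomogeneous p) : IsBihom (C a : S k) p 0 := by
  classical
  refine ⟨isHomogeneous_C _ _, fun m => ?_⟩
  rw [coeff_C]
  split_ifs
  · exact ha
  · exact isHomogeneous_zero _ _ _

lemma IsBihom.CX (i : Fin 3) : IsBihom (MvPolynomial.C (X i) : S k) 1 0 :=
  IsBihom.C (isHomogeneous_X _ _)

lemma IsBihom.T (i : Fin 3) : IsBihom (X i : S k) 0 1 := by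
  classical
  refine ⟨isHomogeneous_X _ _, fun m => ?_⟩
  rw [coeff_X]
  split_ifs
  · exact isHomogeneous_one _ _
  · exact isHomogeneous_zero _ _ _

lemma IsBihom.one : IsBihom (1 : S k) 0 0 := by
  simpa using IsBihom.C (k := k) (isHomogeneous_one _ _)

lemma IsBihom.pow {F : S k} {p q : ℕ} (hF : IsBihom F p q) (n : ℕ) :
    IsBihom (F ^ n) (p * n) (q * n) := by
  induction n with
  | zero => simpa using IsBihom.one
  | succ n ih => rw [pow_succ, Nat.mul_succ, Nat.mul_succ]; exact ih.mul hF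

lemma IsBihom.of_eq {F : S k} {p q p' q' : ℕ} (hF : IsBihom F p q) (hp : p = p') (hq : q = q') :
    IsBihom F p' q' := hp ▸ hq ▸ hF

end Pool.Agent.Lib.MP_2a35bd_al
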