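import Mathlib

/-!
Definitions for the problem on Sylvester forms and the Rees ideal of the 2-minors of a 3 x 2 matrix.
-/

namespace Pool.Agent.Lib.MP_2a35bd_al

open MvPolynomial

/-- The polynomial ring `R = k[x,y,z]`, with `x = X 0`, `y = X 1`, `z = X 2`. -/
abbrev R (k : Type*) [Field k] := MvPolynomial (Fin 3) k

/-- The polynomial ring `S = R[t₁,t₂,t₃]`, with `t₁ = X 0`, `t₂ = X 1`, `t₃ = X 2`. -/
abbrev S (k : Type*) [Field k] := MvPolynomial (Fin 3) (R k)

variable {k : Type*} [Field k]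

/-- `F` is bihomogeneous of bidegree `(p, q)`: homogeneous of degree `q` in the `tᵢ`, with all
coefficients forms of degree `p` in `x, y, z`. -/
def IsBihom (F : S k) (p q : ℕ) : Prop :=
  F.IsHomogeneous q ∧ ∀ m, (coeff m F).IsHomogeneous p

/-- The signed 2-minor `Δᵢ` of `φ` omitting row `i`. -/
noncomputable def signedMinor (φ : Matrix (Fin 3) (Fin 2) (R k)) (i : Fin 3) : R k :=
  (-1) ^ (i : ℕ) * (φ.submatrix i.succAbove id).det

/-- The ideal `I = I₂(φ) = (Δ₁, Δ₂, Δ₃)`. -/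
noncomputable def minorIdeal (φ : Matrix (Fin 3) (Fin 2) (R k)) : Ideal (R k) :=
  Ideal.span (Set.range (signedMinor φ))

/-- The ideal `I₁(φ)` generated by the entries of `φ`. -/
noncomputable def entryIdeal (φ : Matrix (Fin 3) (Fin 2) (R k)) : Ideal (R k) :=
  Ideal.span {a | ∃ i j, a = φ i j}

/-- The Rees ideal: the kernel of the `R`-algebra map `S → R[t]`, `tᵢ ↦ Δᵢ t`. -/
noncomputable def reesIdeal (φ : Matrix (Fin 3) (Fin 2) (R k)) : Ideal (S k) :=
  RingHom.ker (aeval (fun i => Polynomial.C (signedMinor φ i) * Polynomial.X) :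
    S k →ₐ[R k] Polynomial (R k))

/-- The syzygy form of column `j`: `∑ᵢ aᵢⱼ tᵢ`; `f = syzForm φ 0` and `g = syzForm φ 1`. -/
noncomputable def syzForm (φ : Matrix (Fin 3) (Fin 2) (R k)) (j : Fin 2) : S k :=
  ∑ i, C (φ i j) * X i

/-- The standing hypotheses on `φ`: column `j` consists of forms of degree `dⱼ` with
`2 ≤ d₁ ≤ d₂`; `I₂(φ)` has codimension 2; `I₁(φ)` has codimension 2, and the intersection of the
codimension-2 components of a minimal primary decomposition of `I₁(φ)` is generated by a regular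
sequence of two forms. -/
structure Admissible (φ : Matrix (Fin 3) (Fin 2) (R k)) (d₁ d₂ : ℕ) : Prop where
  two_le : 2 ≤ d₁
  le : d₁ ≤ d₂
  hom₁ : ∀ i, (φ i 0).IsHomogeneous d₁
  hom₂ : ∀ i, (φ i 1).IsHomogeneous d₂
  height_minors : (minorIdeal φ).height = 2
  height_entries : (entryIdeal φ).height = 2
  component : ∃ T : Finset (Ideal (R k)),
    Submodule.IsMinimalPrimaryDecomposition (entryIdeal φ) T ∧
      ∃ (α β : R k) (a b : ℕ), α.IsHomogeneous a ∧ β.IsHomogeneous b ∧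
        RingTheory.Sequence.IsRegular (R k) [α, β] ∧
        sInf {Q : Ideal (R k) | Q ∈ T ∧ Q.height = 2} = Ideal.span {α, β}

/-- `h` is a Sylvester form of `F₁, …, F_s` with respect to `a₁, …, a_s`: the `aⱼ ∈ R` are forms
of positive degree, `Fᵢ = ∑ⱼ cᵢⱼ aⱼ` with `cᵢⱼ ∈ S` bihomogeneous, and `h = det (cᵢⱼ)`. -/
def IsSylvester {s : ℕ} (F : Fin s → S k) (a : Fin s → R k) (h : S k) : Prop :=
  (∀ j, ∃ e, 0 < e ∧ (a j).IsHomogeneous e) ∧
    ∃ c : Matrix (Fin s) (Fin s) (S k), (∀ i j, ∃ p q, IsBihom (c i j) p q) ∧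
      (∀ i, F i = ∑ j, c i j * C (a j)) ∧ h = c.det

end Pool.Agent.Lib.MP_2a35bd_al
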