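import Pool.Agent.Lib.MP_2a35bd_al.Basic

/-!
The example `φ = [[x³, 0], [x²z, y⁴], [y²z, x⁴]]`: its Rees ideal is `(f, g, h₁, h₂, h₃)`.
-/

namespace Pool.Agent.Lib.MP_2a35bd_al.ExA

open MvPolynomial

variable (k : Type*) [Field k]

noncomputable abbrev x : S k := C (X 0)
noncomputable abbrev y : S k := C (X 1)
noncomputable abbrev z : S k := C (X 2)
noncomputable abbrev t : S k := X 0
noncomputable abbrev u : S k := X 1
noncomputable abbrev v : S k := X 2

noncomputable def f : S k := x k ^ 3 * t k + x k ^ 2 * z k * u k + y k ^ 2 * z k * v k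
noncomputable def g : S k := y k ^ 4 * u k + x k ^ 4 * v k
noncomputable def h1 : S k :=
  (x k * t k + z k * u k) * (y k ^ 2 * u k) - (z k * v k) * (x k ^ 2 * v k)
noncomputable def h2 : S k :=
  (x k ^ 2 * t k + x k * z k * u k) * u k ^ 2 -
    v k * (y k ^ 2 * t k * u k - x k * z k * v k ^ 2)
noncomputable def h3 : S k :=
  (x k * t k + z k * u k) * ((x k * t k + z k * u k) * u k) - (z k * v k) * (-(z k * v k ^ 2))

noncomputable def L : Ideal (S k) := Ideal.span {f k, g k, h1 k, h2 k, h3 k}

variable {k}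

lemma f_mem : f k ∈ L k := Ideal.subset_span (by simp)
lemma g_mem : g k ∈ L k := Ideal.subset_span (by simp)
lemma h1_mem : h1 k ∈ L k := Ideal.subset_span (by simp)
lemma h2_mem : h2 k ∈ L k := Ideal.subset_span (by simp)
lemma h3_mem : h3 k ∈ L k := Ideal.subset_span (by simp)

lemma x_ne : x k ≠ 0 := (prime_CX 0).ne_zero
lemma y_ne : y k ≠ 0 := (prime_CX 1).ne_zero
lemma z_ne : z k ≠ 0 := (prime_CX 2).ne_zero
lemma v_ne : v k ≠ 0 := (prime_T 2).ne_zero

lemma killx (a : S k) : ∃ p, a = x k * p + killS ![true, false, false] ![false, false, false] a := by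
  have := sub_killS_mem ![true, false, false] ![false, false, false] (Ideal.span {x k})
    (by intro i hi; fin_cases i <;> simp_all)
    (by intro i hi; fin_cases i <;> simp_all) a
  obtain ⟨p, hp⟩ := Ideal.mem_span_singleton'.1 this
  exact ⟨p, by rw [mul_comm, hp]; ring⟩

lemma killxv (a : S k) : ∃ p q, a = x k * p + v k * q +
    killS ![true, false, false] ![false, false, true] a := by
  have := sub_killS_mem ![true, false, false] ![false, false, true] (Ideal.span {x k, v k})
    (by intro i hi; fin_cases i <;> first | (simp at hi; done) | exact Ideal.subset_span (by simp))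
    (by intro i hi; fin_cases i <;> first | (simp at hi; done) | exact Ideal.subset_span (by simp)) a
  obtain ⟨p, q, hp⟩ := Ideal.mem_span_pair.1 this
  exact ⟨p, q, by rw [mul_comm, mul_comm (v k), hp]; ring⟩

lemma killxz (a : S k) : ∃ p q, a = x k * p + z k * q +
    killS ![true, false, true] ![false, false, false] a := by
  have := sub_killS_mem ![true, false, true] ![false, false, false] (Ideal.span {x k, z k})
    (by intro i hi; fin_cases i <;> first | (simp at hi; done) | exact Ideal.subset_span (by simp))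
    (by intro i hi; fin_cases i <;> simp_all) a
  obtain ⟨p, q, hp⟩ := Ideal.mem_span_pair.1 this
  exact ⟨p, q, by rw [mul_comm, mul_comm (z k), hp]; ring⟩

lemma step1 (a1 F : S k) (h : a1 * f k = x k * F) : F ∈ L k := by
  obtain ⟨p, hp⟩ := killx a1
  have h' := congrArg (killS ![true, false, false] ![false, false, false]) h
  simp only [f, map_mul, map_add, map_pow, killS_C, killS_X, killR_X] at h'
  simp at h'
  rw [h', add_zero] at hp
  rw [hp, mul_assoc] at h
  rw [← mul_left_cancel₀ x_ne h]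
  exact Ideal.mul_mem_left _ _ f_mem

lemma step2 (a1 a2 F : S k) (h : a1 * f k + a2 * g k = x k * F) : F ∈ L k := by
  obtain ⟨p, hp⟩ := killx a2
  have h' := congrArg (killS ![true, false, false] ![false, false, false]) h
  simp only [f, g, map_mul, map_add, map_pow, killS_C, killS_X, killR_X] at h'
  simp at h'
  set b1 := killS ![true, false, false] ![false, false, false] a1
  set b2 := killS ![true, false, false] ![false, false, false] a2
  have h2' : b1 * (z k * v k) + b2 * (y k ^ 2 * u k) = 0 := by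
    apply mul_left_cancel₀ (pow_ne_zero 2 (y_ne (k := k)))
    rw [mul_zero, ← h']; ring
  have hz : z k ∣ b2 * (y k ^ 2 * u k) := ⟨-(b1 * v k), by linear_combination h2'⟩
  have hz' : z k ∣ b2 := ((prime_CX 2).dvd_or_dvd hz).resolve_right
    (not_dvd_of_ev (evS (k := k) ![1, 1, (0 : k)] ![1, 1, 1]) (by simp) (by simp))
  obtain ⟨r, hr⟩ := hz'
  have h3' : b1 * v k + r * (y k ^ 2 * u k) = 0 := by
    apply mul_left_cancel₀ (z_ne (k := k))
    rw [mul_zero, ← h2', hr]; ring
  have hv : v k ∣ r * (y k ^ 2 * u k) := ⟨-b1, by linear_combination h3'⟩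
  have hv' : v k ∣ r := ((prime_T 2).dvd_or_dvd hv).resolve_right
    (not_dvd_of_ev (evS (k := k) ![1, 1, (1 : k)] ![1, 1, 0]) (by simp) (by simp))
  obtain ⟨q, hq⟩ := hv'
  have key := step1 (a1 + q * (y k ^ 2 * u k)) (F - p * g k + q * x k * h1 k) (by
    rw [hr, hq] at hp
    rw [hp] at h
    simp only [f, g, h1] at h ⊢
    linear_combination h)
  have : F = (F - p * g k + q * x k * h1 k) + p * g k - q * x k * h1 k := by ring
  rw [this]
  exact sub_mem (add_mem key (Ideal.mul_mem_left _ _ g_mem)) (Ideal.mul_mem_left _ _ h1_mem)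

lemma step3 (a1 a2 a3 F : S k) (h : a1 * f k + a2 * g k + a3 * h1 k = x k * F) : F ∈ L k := by
  obtain ⟨p, q, hp⟩ := killxv a3
  have h' := congrArg (killS ![true, false, false] ![false, false, true]) h
  simp only [f, g, h1, map_mul, map_add, map_sub, map_pow, killS_C, killS_X, killR_X] at h'
  simp at h'
  set b2 := killS ![true, false, false] ![false, false, true] a2
  set b3 := killS ![true, false, false] ![false, false, true] a3
  have h2' : b2 * (y k ^ 2 * u k) + b3 * (z k * u k ^ 2) = 0 := by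
    apply mul_left_cancel₀ (pow_ne_zero 2 (y_ne (k := k)))
    rw [mul_zero, ← h']; ring
  have hy : y k ^ 2 ∣ b3 * (z k * u k ^ 2) := ⟨-(b2 * u k), by linear_combination h2'⟩
  have hy' : y k ^ 2 ∣ b3 := (prime_CX 1).pow_dvd_of_dvd_mul_right 2
    (not_dvd_of_ev (evS (k := k) ![1, 0, (1 : k)] ![1, 1, 1]) (by simp) (by simp)) hy
  obtain ⟨r, hr⟩ := hy'
  have key := step2 (a1 + q * u k ^ 2 - r * x k ^ 2 * v k) (a2 + r * (x k * t k + z k * u k))
    (F - p * h1 k + q * h2 k) (by
    rw [hr] at hp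
    rw [hp] at h
    simp only [f, g, h1, h2] at h ⊢
    linear_combination h)
  have : F = (F - p * h1 k + q * h2 k) + p * h1 k - q * h2 k := by ring
  rw [this]
  exact sub_mem (add_mem key (Ideal.mul_mem_left _ _ h1_mem)) (Ideal.mul_mem_left _ _ h2_mem)

lemma step4 (a1 a2 a3 a4 F : S k)
    (h : a1 * f k + a2 * g k + a3 * h1 k + a4 * h2 k = x k * F) : F ∈ L k := by
  obtain ⟨p, q, hp⟩ := killxz a4
  have h' := congrArg (killS ![true, false, true] ![false, false, false]) h
  simp only [f, g, h1, h2, map_mul, map_add, map_sub, map_pow, killS_C, killS_X, killR_X] at h'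
  simp at h'
  set b2 := killS ![true, false, true] ![false, false, false] a2
  set b4 := killS ![true, false, true] ![false, false, false] a4
  have h2' : b2 * (y k ^ 2 * u k) - b4 * (t k * u k * v k) = 0 := by
    apply mul_left_cancel₀ (pow_ne_zero 2 (y_ne (k := k)))
    rw [mul_zero]; linear_combination h'
  have hy : y k ^ 2 ∣ b4 * (t k * u k * v k) := ⟨b2 * u k, by linear_combination -h2'⟩
  have hy' : y k ^ 2 ∣ b4 := (prime_CX 1).pow_dvd_of_dvd_mul_right 2
    (not_dvd_of_ev (evS (k := k) ![1, 0, (1 : k)] ![1, 1, 1]) (by simp) (by simp)) hy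
  obtain ⟨r, hr⟩ := hy'
  have key := step3 (a1 - q * t k * u k) (a2 - r * t k * v k) a3
    (F - p * h2 k - q * h3 k - r * (u k * h1 k + v k ^ 2 * f k)) (by
    rw [hr] at hp
    rw [hp] at h
    simp only [f, g, h1, h2, h3] at h ⊢
    linear_combination h)
  have : F = (F - p * h2 k - q * h3 k - r * (u k * h1 k + v k ^ 2 * f k)) + p * h2 k + q * h3 k
      + r * (u k * h1 k + v k ^ 2 * f k) := by ring
  rw [this]
  exact add_mem (add_mem (add_mem key (Ideal.mul_mem_left _ _ h2_mem))
    (Ideal.mul_mem_left _ _ h3_mem)) (Ideal.mul_mem_left _ _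
      (add_mem (Ideal.mul_mem_left _ _ h1_mem) (Ideal.mul_mem_left _ _ f_mem)))

lemma step5 (a1 a2 a3 a4 a5 F : S k)
    (h : a1 * f k + a2 * g k + a3 * h1 k + a4 * h2 k + a5 * h3 k = x k * F) : F ∈ L k := by
  obtain ⟨p, hp⟩ := killx a5
  have h' := congrArg (killS ![true, false, false] ![false, false, false]) h
  simp only [f, g, h1, h2, h3, map_mul, map_add, map_sub, map_pow, map_neg, killS_C, killS_X,
    killR_X] at h'
  simp at h'
  set b1 := killS ![true, false, false] ![false, false, false] a1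
  set b2 := killS ![true, false, false] ![false, false, false] a2
  set b3 := killS ![true, false, false] ![false, false, false] a3
  set b4 := killS ![true, false, false] ![false, false, false] a4
  set b5 := killS ![true, false, false] ![false, false, false] a5
  have hy : y k ^ 2 ∣ b5 * (z k ^ 2 * (u k ^ 3 + v k ^ 3)) :=
    ⟨-(b1 * z k * v k + b2 * y k ^ 2 * u k + b3 * z k * u k ^ 2 - b4 * t k * u k * v k), by
      linear_combination h'⟩
  have hy' : y k ^ 2 ∣ b5 := (prime_CX 1).pow_dvd_of_dvd_mul_right 2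
    (not_dvd_of_ev (evS (k := k) ![1, 0, (1 : k)] ![1, 1, 0]) (by simp) (by simp)) hy
  obtain ⟨r, hr⟩ := hy'
  have key := step4 (a1 + r * z k * v k ^ 2) a2 (a3 + r * (x k * t k + z k * u k)) a4
    (F - p * h3 k) (by
    rw [hr] at hp
    rw [hp] at h
    simp only [f, g, h1, h2, h3] at h ⊢
    linear_combination h)
  have : F = (F - p * h3 k) + p * h3 k := by ring
  rw [this]
  exact add_mem key (Ideal.mul_mem_left _ _ h3_mem)

lemma mem_L_iff (F : S k) : F ∈ L k ↔ ∃ a1 a2 a3 a4 a5 : S k,
    a1 * f k + a2 * g k + a3 * h1 k + a4 * h2 k + a5 * h3 k = F := by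
  simp only [L, Ideal.mem_span_insert, Ideal.mem_span_singleton']
  constructor
  · rintro ⟨a1, _, ⟨a2, _, ⟨a3, _, ⟨a4, _, ⟨a5, rfl⟩, rfl⟩, rfl⟩, rfl⟩, rfl⟩
    exact ⟨a1, a2, a3, a4, a5, by ring⟩
  · rintro ⟨a1, a2, a3, a4, a5, rfl⟩
    exact ⟨a1, _, ⟨a2, _, ⟨a3, _, ⟨a4, _, ⟨a5, rfl⟩, rfl⟩, rfl⟩, rfl⟩, by ring⟩

lemma mem_of_x_mul (F : S k) (h : x k * F ∈ L k) : F ∈ L k := by
  obtain ⟨a1, a2, a3, a4, a5, h⟩ := (mem_L_iff _).1 h
  exact step5 a1 a2 a3 a4 a5 F h

lemma mem_of_x_pow_mul (n : ℕ) (F : S k) (h : x k ^ n * F ∈ L k) : F ∈ L k := by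
  induction n generalizing F with
  | zero => simpa using h
  | succ n ih =>
    apply mem_of_x_mul
    apply ih
    rwa [← mul_assoc, ← pow_succ]

end Pool.Agent.Lib.MP_2a35bd_al.ExA
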