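import Pool.Agent.Lib.MP_2a35bd_al.Basic

/-!
Heights, regular pairs and primary ideals in `R = k[x,y,z]`.
-/

namespace Pool.Agent.Lib.MP_2a35bd_al

open MvPolynomial

variable {k : Type*} [Field k]

lemma isRegular_pair {A : Type*} [CommRing A] [IsDomain A] (a b : A) (ha : a ≠ 0)
    (hab : ∀ r, a ∣ b * r → a ∣ r) (hne : Ideal.span {a, b} ≠ ⊤) :
    RingTheory.Sequence.IsRegular A [a, b] := by
  refine ⟨⟨?_⟩, ?_⟩
  · intro i hi
    have hi' : i = 0 ∨ i = 1 := by simp at hi; omega
    rcases hi' with rfl | rfl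
    · rw [isSMulRegular_quotient_iff_mem_of_smul_mem]
      intro r hr
      simp at hr ⊢
      exact hr.resolve_left ha
    · rw [isSMulRegular_quotient_iff_mem_of_smul_mem]
      intro r hr
      simp [Ideal.mem_span_singleton] at hr ⊢
      exact hab r hr
  · intro h
    apply hne
    have : Ideal.ofList [a, b] = Ideal.span {a, b} := by
      simp [Ideal.span_insert]
    rw [this] at h
    simpa using h.symm

lemma X_not_mem_span_singleton {i j : Fin 3} (h : i ≠ j) :
    (X j : R k) ∉ Ideal.span {(X i : R k)} := by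
  rw [Ideal.mem_span_singleton]
  exact not_dvd_of_ev (eval (fun l => if l = i then (0 : k) else 1)) (by simp) (by simp [h.symm])

lemma isPrime_span_X (i : Fin 3) : (Ideal.span {(X i : R k)}).IsPrime :=
  (Ideal.span_singleton_prime (X_ne_zero i)).2 X_prime

lemma two_le_height_prime (P : Ideal (R k)) [P.IsPrime] {i j : Fin 3} (h : i ≠ j)
    (hi : X i ∈ P) (hj : X j ∈ P) : 2 ≤ P.height := by
  have := isPrime_span_X (k := k) i
  have h1 : (⊥ : Ideal (R k)) < Ideal.span {(X i : R k)} := by
    rw [bot_lt_iff_ne_bot, Ne, Ideal.span_singleton_eq_bot]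
    exact X_ne_zero i
  have h2 : Ideal.span {(X i : R k)} < P := by
    refine lt_of_le_of_ne ((Ideal.span_singleton_le_iff_mem _).2 hi) ?_
    intro e
    exact X_not_mem_span_singleton h (e ▸ hj)
  have e1 := Ideal.height_add_one_le_of_lt_of_isPrime h1
  have e2 := Ideal.height_add_one_le_of_lt_of_isPrime h2
  rw [Ideal.height_bot, zero_add] at e1
  calc (2 : ℕ∞) = 1 + 1 := rfl
    _ ≤ _ := by gcongr
    _ ≤ _ := e2

lemma le_height_of_forall (I : Ideal (R k)) (n : ℕ∞)
    (h : ∀ P : Ideal (R k), P.IsPrime → I ≤ P → n ≤ P.height) : n ≤ I.height := by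
  rw [Ideal.height_eq_inf_minimalPrimes]
  exact le_iInf₂ fun P hP => h P hP.isPrime hP.le

lemma span_pair_ne_top (a b : R k) (ha : constantCoeff a = 0) (hb : constantCoeff b = 0) :
    Ideal.span {a, b} ≠ ⊤ := by
  intro h
  have : (1 : R k) ∈ Ideal.span {a, b} := h ▸ Submodule.mem_top
  obtain ⟨p, q, hpq⟩ := Ideal.mem_span_pair.1 this
  have := congrArg constantCoeff hpq
  simp [ha, hb] at this

lemma height_le_two (I : Ideal (R k)) (i j : Fin 3) (h : I ≤ Ideal.span {X i, X j}) :
    I.height ≤ 2 := by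
  refine (Ideal.height_mono h).trans ?_
  refine (Ideal.height_le_spanFinrank _ (span_pair_ne_top _ _ (by simp) (by simp))).trans ?_
  have h1 := Submodule.spanFinrank_span_le_ncard_of_finite (R := R k)
    (s := {(X i : R k), X j}) (Set.toFinite _)
  have h2 : ({(X i : R k), X j} : Set (R k)).ncard ≤ 2 := by
    refine (Set.ncard_insert_le _ _).trans ?_
    simp
  exact_mod_cast h1.trans h2

lemma span_xy_eq_ker : Ideal.span {(X 0 : R k), X 1} = RingHom.ker (killR ![true, true, false]) := by
  apply le_antisymm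
  · rw [Ideal.span_le]
    rintro _ (rfl | rfl) <;> simp [RingHom.mem_ker]
  · intro p hp
    have := sub_killR_mem ![true, true, false] (Ideal.span {(X 0 : R k), X 1})
      (by intro i hi; fin_cases i <;>
        first | (simp at hi; done) | exact Ideal.subset_span (by simp)) p
    rwa [RingHom.mem_ker.1 hp, sub_zero] at this

lemma isPrime_span_xy : (Ideal.span {(X 0 : R k), X 1}).IsPrime := by
  rw [span_xy_eq_ker]
  exact RingHom.ker_isPrime _

lemma three_le_height_prime (P : Ideal (R k)) [P.IsPrime]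
    (h0 : X 0 ∈ P) (h1 : X 1 ∈ P) (h2 : X 2 ∈ P) : 3 ≤ P.height := by
  have := isPrime_span_xy (k := k)
  have e1 : 2 ≤ (Ideal.span {(X 0 : R k), X 1}).height :=
    two_le_height_prime _ (i := 0) (j := 1) (by decide) (Ideal.subset_span (by simp))
      (Ideal.subset_span (by simp))
  have h2' : Ideal.span {(X 0 : R k), X 1} < P := by
    refine lt_of_le_of_ne ?_ ?_
    · rw [Ideal.span_le]
      rintro _ (rfl | rfl) <;> assumption
    · intro e
      rw [← e, span_xy_eq_ker, RingHom.mem_ker] at h2
      simp at h2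
  have e2 := Ideal.height_add_one_le_of_lt_of_isPrime h2'
  calc (3 : ℕ∞) = 2 + 1 := rfl
    _ ≤ _ := by gcongr
    _ ≤ _ := e2

lemma span_xyz_eq_ker : Ideal.span {(X 0 : R k), X 1, X 2} = RingHom.ker constantCoeff := by
  apply le_antisymm
  · rw [Ideal.span_le]
    rintro _ (rfl | rfl | rfl) <;> simp [RingHom.mem_ker]
  · intro p hp
    have := sub_killR_mem ![true, true, true] (Ideal.span {(X 0 : R k), X 1, X 2})
      (by intro i hi; fin_cases i <;> exact Ideal.subset_span (by simp)) p
    have e : killR (k := k) ![true, true, true] = (C : k →+* R k).comp constantCoeff := by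
      apply MvPolynomial.ringHom_ext
      · intro a; simp
      · intro i; fin_cases i <;> simp
    rwa [e, RingHom.comp_apply, RingHom.mem_ker.1 hp, map_zero, sub_zero] at this

lemma isMaximal_span_xyz : (Ideal.span {(X 0 : R k), X 1, X 2}).IsMaximal := by
  rw [span_xyz_eq_ker]
  exact RingHom.ker_isMaximal_of_surjective _ (fun a => ⟨C a, by simp⟩)

end Pool.Agent.Lib.MP_2a35bd_al
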