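import Pool.Agent.Lib.MP_2a35bd_al.ExA
import Pool.Agent.Lib.MP_2a35bd_al.Height

/-!
The example `φ = [[x³, 0], [x²z, y⁴], [y²z, x⁴]]`: hypotheses, Rees ideal, minimality.
-/

namespace Pool.Agent.Lib.MP_2a35bd_al.ExA

open MvPolynomial

variable (k : Type*) [Field k]

noncomputable def phi : Matrix (Fin 3) (Fin 2) (R k) :=
  !![X 0 ^ 3, 0; X 0 ^ 2 * X 2, X 1 ^ 4; X 1 ^ 2 * X 2, X 0 ^ 4]

variable {k}

lemma minor0 : signedMinor (phi k) 0 = X 2 * (X 0 ^ 6 - X 1 ^ 6) := by
  simp [signedMinor, phi, Matrix.det_fin_two]; ring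

lemma minor1 : signedMinor (phi k) 1 = -X 0 ^ 7 := by
  simp [signedMinor, phi, Matrix.det_fin_two, Fin.succAbove]; ring

lemma minor2 : signedMinor (phi k) 2 = X 0 ^ 3 * X 1 ^ 4 := by
  simp [signedMinor, phi, Matrix.det_fin_two, Fin.succAbove]

lemma syz0 : syzForm (phi k) 0 = f k := by
  simp [syzForm, phi, Fin.sum_univ_three, f]

lemma syz1 : syzForm (phi k) 1 = g k := by
  simp [syzForm, phi, Fin.sum_univ_three, g]

lemma L_le : L k ≤ reesIdeal (phi k) := by
  rw [L, Ideal.span_le]
  rintro _ (rfl | rfl | rfl | rfl | rfl) <;>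
  · simp only [reesIdeal, SetLike.mem_coe, RingHom.mem_ker, f, g, h1, h2, h3, map_add, map_mul,
      map_sub, map_pow, map_neg, aeval_X, aeval_C, minor0, minor1, minor2,
      Polynomial.algebraMap_eq]
    ring

lemma exists_reduction (F : S k) : ∃ (n : ℕ) (G : Polynomial (R k)),
    x k ^ n * F - Polynomial.aeval (u k) G ∈ L k := by
  induction F using MvPolynomial.induction_on with
  | C a => exact ⟨0, Polynomial.C a, by simp⟩
  | add p q hp hq =>
    obtain ⟨n, G, hG⟩ := hp
    obtain ⟨m, H, hH⟩ := hq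
    refine ⟨n + m, Polynomial.C (X 0 ^ m) * G + Polynomial.C (X 0 ^ n) * H, ?_⟩
    have := add_mem (Ideal.mul_mem_left _ (x k ^ m) hG) (Ideal.mul_mem_left _ (x k ^ n) hH)
    have e : x k ^ (n + m) * (p + q) - Polynomial.aeval (u k)
        (Polynomial.C (X 0 ^ m : R k) * G + Polynomial.C (X 0 ^ n : R k) * H) =
        x k ^ m * (x k ^ n * p - Polynomial.aeval (u k) G) +
          x k ^ n * (x k ^ m * q - Polynomial.aeval (u k) H) := by
      simp only [map_add, map_mul, map_pow, Polynomial.aeval_C, algebraMap_eq]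
      ring
    rwa [e]
  | mul_X p i hp =>
    obtain ⟨n, G, hG⟩ := hp
    have key : ∃ (m : ℕ) (H : Polynomial (R k)),
        x k ^ m * X i - Polynomial.aeval (u k) H ∈ L k := by
      have hi : i = 0 ∨ i = 1 ∨ i = 2 := by fin_cases i <;> simp
      rcases hi with rfl | rfl | rfl
      · refine ⟨7, Polynomial.C (X 2 * (X 1 ^ 6 - X 0 ^ 6)) * Polynomial.X, ?_⟩
        have := sub_mem (Ideal.mul_mem_left _ (x k ^ 4) (f_mem (k := k)))
          (Ideal.mul_mem_left _ (y k ^ 2 * z k) (g_mem (k := k)))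
        have e : x k ^ 7 * X 0 - Polynomial.aeval (u k)
            (Polynomial.C (X 2 * (X 1 ^ 6 - X 0 ^ 6) : R k) * Polynomial.X) =
            x k ^ 4 * f k - y k ^ 2 * z k * g k := by
          simp only [map_sub, map_mul, map_pow, Polynomial.aeval_C, Polynomial.aeval_X,
            algebraMap_eq, f, g]
          ring
        rw [e]; exact this
      · exact ⟨0, Polynomial.X, by simp⟩
      · refine ⟨4, Polynomial.C (-X 1 ^ 4) * Polynomial.X, ?_⟩
        have e : x k ^ 4 * X 2 - Polynomial.aeval (u k)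
            (Polynomial.C (-X 1 ^ 4 : R k) * Polynomial.X) = g k := by
          simp only [map_neg, map_mul, map_pow, Polynomial.aeval_C, Polynomial.aeval_X,
            algebraMap_eq, g]
          ring
        rw [e]; exact g_mem
    obtain ⟨m, H, hH⟩ := key
    refine ⟨n + m, G * H, ?_⟩
    have := add_mem (Ideal.mul_mem_left _ (x k ^ m * X i) hG)
      (Ideal.mul_mem_left _ (Polynomial.aeval (u k) G) hH)
    have e : x k ^ (n + m) * (p * X i) - Polynomial.aeval (u k) (G * H) =
        x k ^ m * X i * (x k ^ n * p - Polynomial.aeval (u k) G) +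
          Polynomial.aeval (u k) G * (x k ^ m * X i - Polynomial.aeval (u k) H) := by
      simp only [map_mul]
      ring
    rwa [e]

lemma rees_eq : reesIdeal (phi k) = L k := by
  refine le_antisymm ?_ L_le
  intro F hF
  obtain ⟨n, G, hG⟩ := exists_reduction F
  have h1 : Polynomial.aeval (u k) G ∈ reesIdeal (phi k) := by
    have := sub_mem (Ideal.mul_mem_left _ (x k ^ n) hF) (L_le hG)
    simpa using this
  rw [reesIdeal, RingHom.mem_ker, ← Polynomial.aeval_algHom_apply, aeval_X, minor1,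
    Polynomial.aeval_def] at h1
  have h2 : G.comp (Polynomial.C (-X 0 ^ 7 : R k) * Polynomial.X) = 0 := h1
  rw [Polynomial.comp_C_mul_X_eq_zero_iff
    (mem_nonZeroDivisors_of_ne_zero (by simp))] at h2
  rw [h2, map_zero, sub_zero] at hG
  exact mem_of_x_pow_mul n F hG

/-! Minimality -/

lemma f_not_mem : f k ∉ Ideal.span {g k, h1 k, h2 k, h3 k} := by
  intro h
  have : Ideal.span {g k, h1 k, h2 k, h3 k} ≤
      RingHom.ker (evS (k := k) ![1, 1, (1 : k)] ![1, 0, 0]) := by
    rw [Ideal.span_le]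
    rintro _ (rfl | rfl | rfl | rfl) <;> simp [RingHom.mem_ker, g, h1, h2, h3]
  have := this h
  simp [RingHom.mem_ker, f] at this

lemma g_not_mem : g k ∉ Ideal.span {f k, h1 k, h2 k, h3 k} := by
  intro h
  have : Ideal.span {f k, h1 k, h2 k, h3 k} ≤
      RingHom.ker (evS (k := k) ![1, 1, (0 : k)] ![0, 1, 0]) := by
    rw [Ideal.span_le]
    rintro _ (rfl | rfl | rfl | rfl) <;> simp [RingHom.mem_ker, f, h1, h2, h3]
  have := this h
  simp [RingHom.mem_ker, g] at this

lemma h3_not_mem : h3 k ∉ Ideal.span {f k, g k, h1 k, h2 k} := by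
  intro h
  have : Ideal.span {f k, g k, h1 k, h2 k} ≤
      RingHom.ker (evS (k := k) ![0, 0, (1 : k)] ![0, 1, 0]) := by
    rw [Ideal.span_le]
    rintro _ (rfl | rfl | rfl | rfl) <;> simp [RingHom.mem_ker, f, g, h1, h2]
  have := this h
  simp [RingHom.mem_ker, h3] at this

lemma h2_not_mem : h2 k ∉ Ideal.span {f k, g k, h1 k, h3 k} := by
  intro h
  have : Ideal.span {f k, g k, h1 k, h3 k} ≤ (Ideal.span {(Polynomial.X : Polynomial k) ^ 4}).comap
      (evS (k := k) ![0, (Polynomial.X : Polynomial k), 0] ![1, 1, 1]) := by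
    rw [Ideal.span_le]
    rintro _ (rfl | rfl | rfl | rfl) <;> simp [f, g, h1, h3]
  have := this h
  simp only [Ideal.mem_comap, h2, map_sub, map_mul, map_add, map_pow, evS_X, evS_CX,
    Ideal.mem_span_singleton] at this
  simp at this
  have := Polynomial.X_pow_dvd_iff.1 this 2 (by norm_num)
  simp at this

lemma h1_not_mem : h1 k ∉ Ideal.span {f k, g k, h2 k, h3 k} := by
  intro h
  have : Ideal.span {f k, g k, h2 k, h3 k} ≤
      (Ideal.span {(Polynomial.C (Polynomial.X : Polynomial k)) ^ 4, Polynomial.X ^ 2}).comap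
      (evS (k := k) ![0, Polynomial.C (Polynomial.X : Polynomial k), Polynomial.X] ![1, 1, 0]) := by
    rw [Ideal.span_le]
    rintro _ (rfl | rfl | rfl | rfl)
    · simp [f]
    · simp only [SetLike.mem_coe, Ideal.mem_comap, g, map_mul, map_add, map_pow, evS_X, evS_CX]
      apply Ideal.subset_span
      simp
    · simp [h2]
    · simp only [SetLike.mem_coe, Ideal.mem_comap, h3, map_sub, map_mul, map_add, map_pow, map_neg,
        evS_X, evS_CX]
      apply Ideal.subset_span
      simp [pow_two]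
  have := this h
  simp only [Ideal.mem_comap, h1, map_sub, map_mul, map_add, map_pow, evS_X, evS_CX] at this
  simp only [Matrix.cons_val_zero, Matrix.cons_val_one, Matrix.cons_val_two, Matrix.head_cons,
    Matrix.tail_cons] at this
  obtain ⟨p, q, hpq⟩ := Ideal.mem_span_pair.1 this
  have h1 := congrArg (fun w => (Polynomial.coeff w 1).coeff 2) hpq
  rw [← Polynomial.C_pow, ← Polynomial.C_pow] at h1
  simp only [Polynomial.coeff_add, Polynomial.coeff_mul_X_pow', Polynomial.coeff_mul_C] at h1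
  have e : ((0 * 1 + Polynomial.X * 1) * (Polynomial.C ((Polynomial.X : Polynomial k) ^ 2) * 1) -
      Polynomial.X * 0 * (0 ^ 2 * 0) : Polynomial (Polynomial k)) =
      Polynomial.C (Polynomial.X ^ 2) * Polynomial.X ^ 1 := by ring
  rw [e, Polynomial.coeff_C_mul_X_pow] at h1
  simp at h1

lemma minimal_gens : Minimal (fun G : Set (S k) => Ideal.span G = reesIdeal (phi k))
    {f k, g k, h1 k, h2 k, h3 k} := by
  refine ⟨rees_eq.symm, ?_⟩
  intro G hG hle
  have hG' : Ideal.span G = L k := hG.trans rees_eq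
  rintro w hw
  by_contra hwG
  have hsub : ∀ s : Set (S k), (∀ a ∈ ({f k, g k, h1 k, h2 k, h3 k} : Set (S k)), a = w ∨ a ∈ s) →
      w ∈ Ideal.span s := by
    intro s hs
    have : G ⊆ s := fun a ha => (hs a (hle ha)).resolve_left (fun e => hwG (e ▸ ha))
    apply Ideal.span_mono this
    rw [hG']
    exact Ideal.subset_span hw
  rcases hw with rfl | rfl | rfl | rfl | rfl
  · exact f_not_mem (hsub _ (by rintro a (rfl | rfl | rfl | rfl | rfl) <;> simp))
  · exact g_not_mem (hsub _ (by rintro a (rfl | rfl | rfl | rfl | rfl) <;> simp))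
  · exact h1_not_mem (hsub _ (by rintro a (rfl | rfl | rfl | rfl | rfl) <;> simp))
  · exact h2_not_mem (hsub _ (by rintro a (rfl | rfl | rfl | rfl | rfl) <;> simp))
  · exact h3_not_mem (hsub _ (by rintro a (rfl | rfl | rfl | rfl | rfl) <;> simp))

lemma h2_ne_h3 : h2 k ≠ h3 k := by
  intro e
  apply h3_not_mem (k := k)
  rw [← e]
  exact Ideal.subset_span (by simp)

end Pool.Agent.Lib.MP_2a35bd_al.ExA
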