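import Pool.Agent.Lib.MP_2a35bd_al.ExA2
import Pool.Agent.Lib.MP_2a35bd_al.Bihom

/-!
The example `φ = [[x³, 0], [x²z, y⁴], [y²z, x⁴]]`: the standing hypotheses and the Sylvester forms.
-/

namespace Pool.Agent.Lib.MP_2a35bd_al.ExA

open MvPolynomial

variable {k : Type*} [Field k]

lemma killxR (a : R k) : ∃ p, a = X 0 * p + killR ![true, false, false] a := by
  have := sub_killR_mem ![true, false, false] (Ideal.span {(X 0 : R k)})
    (by intro i hi; fin_cases i <;> simp_all) a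
  obtain ⟨p, hp⟩ := Ideal.mem_span_singleton'.1 this
  exact ⟨p, by rw [mul_comm, hp]; ring⟩

lemma killR_xy (a : R k) :
    killR ![true, true, false] (killR ![true, false, false] a) = killR ![true, true, false] a := by
  have : (killR (k := k) ![true, true, false]).comp (killR ![true, false, false]) =
      killR ![true, true, false] := by
    apply MvPolynomial.ringHom_ext
    · intro a; simp
    · intro i; fin_cases i <;> simp
  exact congrArg (fun φ => φ a) this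

lemma aux_xy2 (a b p q : R k) (hb : b ∉ Ideal.span {(X 0 : R k), X 1})
    (h : a * b = X 0 * p + X 1 ^ 2 * q) : ∃ r s, a = X 0 * r + X 1 ^ 2 * s := by
  obtain ⟨r, hr⟩ := killxR a
  have h' := congrArg (killR ![true, false, false]) h
  simp only [map_mul, map_add, map_pow, killR_X] at h'
  simp at h'
  have hy : ¬ (X 1 : R k) ∣ killR ![true, false, false] b := by
    apply not_dvd_of_ev (killR ![true, true, false]) (by simp)
    rw [killR_xy]
    rwa [span_xy_eq_ker, RingHom.mem_ker] at hb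
  obtain ⟨s, hs⟩ := (X_prime (i := (1 : Fin 3)) (R := k)).pow_dvd_of_dvd_mul_right 2 hy
    ⟨_, h'⟩
  exact ⟨r, s, by rw [← hs]; exact hr⟩

lemma x_not_dvd_y2 : ¬ (X 0 : R k) ∣ X 1 ^ 2 :=
  not_dvd_of_ev (eval ![(0 : k), 1, 1]) (by simp) (by simp)

lemma Q1_aux (a b : R k) (hb : b ∉ Ideal.span {(X 0 : R k), X 1})
    (h : a * b ∈ Ideal.span {(X 0 ^ 2 : R k), X 1 ^ 2}) :
    a ∈ Ideal.span {(X 0 ^ 2 : R k), X 1 ^ 2} := by
  obtain ⟨p, q, hpq⟩ := Ideal.mem_span_pair.1 h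
  obtain ⟨r, s, hrs⟩ := aux_xy2 a b (X 0 * p) q hb (by rw [← hpq]; ring)
  have hd : (X 0 : R k) ∣ X 1 ^ 2 * (q - s * b) :=
    ⟨r * b - X 0 * p, by rw [hrs] at hpq; linear_combination hpq⟩
  obtain ⟨q', hq'⟩ := ((X_prime (i := (0 : Fin 3)) (R := k)).dvd_or_dvd hd).resolve_left
    x_not_dvd_y2
  have e : r * b = X 0 * p + X 1 ^ 2 * q' := by
    apply mul_left_cancel₀ (X_ne_zero (R := k) (0 : Fin 3))
    rw [hrs] at hpq
    linear_combination -hpq + X 1 ^ 2 * hq'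
  obtain ⟨r', s', hrs'⟩ := aux_xy2 r b p q' hb e
  exact Ideal.mem_span_pair.2 ⟨r', s + X 0 * s', by rw [hrs, hrs']; ring⟩

lemma radical_Q1 : (Ideal.span {(X 0 ^ 2 : R k), X 1 ^ 2}).radical =
    Ideal.span {(X 0 : R k), X 1} := by
  apply le_antisymm
  · rw [isPrime_span_xy.radical_le_iff, Ideal.span_le]
    rintro _ (rfl | rfl) <;>
      exact Ideal.pow_mem_of_mem _ (Ideal.subset_span (by simp)) 2 (by norm_num)
  · rw [Ideal.span_le]
    rintro _ (rfl | rfl) <;> exact ⟨2, Ideal.subset_span (by simp)⟩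

lemma radical_Q2 : (Ideal.span {(X 0 ^ 3 : R k), X 1 ^ 4, X 2}).radical =
    Ideal.span {(X 0 : R k), X 1, X 2} := by
  apply le_antisymm
  · rw [isMaximal_span_xyz.isPrime.radical_le_iff, Ideal.span_le]
    rintro _ (rfl | rfl | rfl)
    · exact Ideal.pow_mem_of_mem _ (Ideal.subset_span (by simp)) 3 (by norm_num)
    · exact Ideal.pow_mem_of_mem _ (Ideal.subset_span (by simp)) 4 (by norm_num)
    · exact Ideal.subset_span (by simp)
  · rw [Ideal.span_le]
    rintro _ (rfl | rfl | rfl)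
    · exact ⟨3, Ideal.subset_span (by simp)⟩
    · exact ⟨4, Ideal.subset_span (by simp)⟩
    · exact ⟨1, Ideal.subset_span (by simp)⟩

lemma primary_Q1 : (Ideal.span {(X 0 ^ 2 : R k), X 1 ^ 2}).IsPrimary := by
  rw [Ideal.isPrimary_iff]
  refine ⟨span_pair_ne_top _ _ (by simp) (by simp), fun {a b} h => ?_⟩
  rw [radical_Q1]
  by_cases hb : b ∈ Ideal.span {(X 0 : R k), X 1}
  · exact Or.inr hb
  · exact Or.inl (Q1_aux a b hb h)

lemma primary_Q2 : (Ideal.span {(X 0 ^ 3 : R k), X 1 ^ 4, X 2}).IsPrimary :=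
  Ideal.isPrimary_of_isMaximal_radical (radical_Q2 (k := k) ▸ isMaximal_span_xyz)

lemma z_not_mem : (X 2 : R k) ∉ Ideal.span {(X 0 : R k), X 1} := by
  rw [span_xy_eq_ker, RingHom.mem_ker]; simp

lemma entry_mem (i : Fin 3) (j : Fin 2) : phi k i j ∈ entryIdeal (phi k) :=
  Ideal.subset_span ⟨i, j, rfl⟩

lemma entry_le {J : Ideal (R k)} (h1 : X 0 ^ 3 ∈ J) (h2 : X 0 ^ 2 * X 2 ∈ J) (h3 : X 1 ^ 4 ∈ J)
    (h4 : X 1 ^ 2 * X 2 ∈ J) : entryIdeal (phi k) ≤ J := by
  rw [entryIdeal, Ideal.span_le]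
  rintro _ ⟨i, j, rfl⟩
  have h5 : (X 0 ^ 4 : R k) ∈ J := by
    rw [pow_succ]; exact Ideal.mul_mem_right _ _ h1
  fin_cases i <;> fin_cases j <;> simp [phi, *]

lemma inf_eq : Ideal.span {(X 0 ^ 2 : R k), X 1 ^ 2} ⊓ Ideal.span {(X 0 ^ 3 : R k), X 1 ^ 4, X 2} =
    entryIdeal (phi k) := by
  apply le_antisymm
  · rintro r ⟨hr1, hr2⟩
    obtain ⟨a, _, hr3, rfl⟩ := Ideal.mem_span_insert.1 hr2
    obtain ⟨b, c, rfl⟩ := Ideal.mem_span_pair.1 hr3
    have hc : c * X 2 ∈ Ideal.span {(X 0 ^ 2 : R k), X 1 ^ 2} := by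
      have h1 : a * X 0 ^ 3 + b * X 1 ^ 4 ∈ Ideal.span {(X 0 ^ 2 : R k), X 1 ^ 2} :=
        Ideal.mem_span_pair.2 ⟨a * X 0, b * X 1 ^ 2, by ring⟩
      have := sub_mem hr1 h1
      rwa [show a * X 0 ^ 3 + (b * X 1 ^ 4 + c * X 2) - (a * X 0 ^ 3 + b * X 1 ^ 4) = c * X 2 by
        ring] at this
    obtain ⟨p, q, rfl⟩ := Ideal.mem_span_pair.1 (Q1_aux c _ z_not_mem hc)
    have e1 : (X 0 ^ 3 : R k) ∈ entryIdeal (phi k) := entry_mem 0 0
    have e2 : (X 0 ^ 2 * X 2 : R k) ∈ entryIdeal (phi k) := entry_mem 1 0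
    have e3 : (X 1 ^ 2 * X 2 : R k) ∈ entryIdeal (phi k) := entry_mem 2 0
    have e4 : (X 1 ^ 4 : R k) ∈ entryIdeal (phi k) := entry_mem 1 1
    rw [show a * X 0 ^ 3 + (b * X 1 ^ 4 + (p * X 0 ^ 2 + q * X 1 ^ 2) * X 2) =
      a * X 0 ^ 3 + p * (X 0 ^ 2 * X 2) + q * (X 1 ^ 2 * X 2) + b * X 1 ^ 4 by ring]
    exact add_mem (add_mem (add_mem (Ideal.mul_mem_left _ _ e1) (Ideal.mul_mem_left _ _ e2))
      (Ideal.mul_mem_left _ _ e3)) (Ideal.mul_mem_left _ _ e4)
  · apply le_inf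
    · apply entry_le
      · exact Ideal.mem_span_pair.2 ⟨X 0, 0, by ring⟩
      · exact Ideal.mem_span_pair.2 ⟨X 2, 0, by ring⟩
      · exact Ideal.mem_span_pair.2 ⟨0, X 1 ^ 2, by ring⟩
      · exact Ideal.mem_span_pair.2 ⟨0, X 2, by ring⟩
    · apply entry_le
      · exact Ideal.subset_span (by simp)
      · exact Ideal.mul_mem_left _ _ (Ideal.subset_span (by simp))
      · exact Ideal.subset_span (by simp)
      · exact Ideal.mul_mem_left _ _ (Ideal.subset_span (by simp))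

lemma Q1_not_le : ¬ Ideal.span {(X 0 ^ 2 : R k), X 1 ^ 2} ≤
    Ideal.span {(X 0 ^ 3 : R k), X 1 ^ 4, X 2} := by
  intro h
  have h1 : (X 0 ^ 2 : R k) ∈ Ideal.span {(X 0 ^ 3 : R k), X 1 ^ 4, X 2} :=
    h (Ideal.subset_span (by simp))
  have : Ideal.span {(X 0 ^ 3 : R k), X 1 ^ 4, X 2} ≤
      (Ideal.span {(Polynomial.X : Polynomial k) ^ 3}).comap
        (aeval ![(Polynomial.X : Polynomial k), 0, 0] : R k →ₐ[k] Polynomial k) := by
    rw [Ideal.span_le]
    rintro _ (rfl | rfl | rfl) <;> simp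
  have := this h1
  rw [Ideal.mem_comap, Ideal.mem_span_singleton, map_pow, aeval_X] at this
  have := Polynomial.X_pow_dvd_iff.1 this 2 (by norm_num)
  simp at this

lemma Q2_not_le : ¬ Ideal.span {(X 0 ^ 3 : R k), X 1 ^ 4, X 2} ≤
    Ideal.span {(X 0 ^ 2 : R k), X 1 ^ 2} := by
  intro h
  have h1 : (X 2 : R k) ∈ Ideal.span {(X 0 ^ 2 : R k), X 1 ^ 2} :=
    h (Ideal.subset_span (by simp))
  exact z_not_mem (radical_Q1 (k := k) ▸ Ideal.le_radical h1)

lemma Q1_ne_Q2 : Ideal.span {(X 0 ^ 2 : R k), X 1 ^ 2} ≠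
    Ideal.span {(X 0 ^ 3 : R k), X 1 ^ 4, X 2} := fun h => Q1_not_le h.le

lemma height_Q1 : (Ideal.span {(X 0 ^ 2 : R k), X 1 ^ 2}).height = 2 := by
  apply le_antisymm
  · exact height_le_two _ 0 1 (radical_Q1 (k := k) ▸ Ideal.le_radical)
  · apply le_height_of_forall
    intro P hP hle
    exact two_le_height_prime P (i := 0) (j := 1) (by decide)
      (hP.mem_of_pow_mem 2 (hle (Ideal.subset_span (by simp))))
      (hP.mem_of_pow_mem 2 (hle (Ideal.subset_span (by simp))))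

lemma height_Q2 : (Ideal.span {(X 0 ^ 3 : R k), X 1 ^ 4, X 2}).height ≠ 2 := by
  have : 3 ≤ (Ideal.span {(X 0 ^ 3 : R k), X 1 ^ 4, X 2}).height := by
    apply le_height_of_forall
    intro P hP hle
    exact three_le_height_prime P
      (hP.mem_of_pow_mem 3 (hle (Ideal.subset_span (by simp))))
      (hP.mem_of_pow_mem 4 (hle (Ideal.subset_span (by simp))))
      (hle (Ideal.subset_span (by simp)))
  intro h
  rw [h] at this
  exact absurd this (by decide)

lemma isRegular_x2_y2 : RingTheory.Sequence.IsRegular (R k) [(X 0 ^ 2 : R k), X 1 ^ 2] :=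
  isRegular_pair _ _ (by simp) (fun _ hr =>
    (X_prime (i := (0 : Fin 3)) (R := k)).pow_dvd_of_dvd_mul_left 2 x_not_dvd_y2 hr)
    (span_pair_ne_top _ _ (by simp) (by simp))

lemma isRegular_x_y2z : RingTheory.Sequence.IsRegular (R k) [(X 0 : R k), X 1 ^ 2 * X 2] :=
  isRegular_pair _ _ (by simp) (fun _ hr =>
    ((X_prime (i := (0 : Fin 3)) (R := k)).dvd_or_dvd hr).resolve_left
      (not_dvd_of_ev (eval ![(0 : k), 1, 1]) (by simp) (by simp)))
    (span_pair_ne_top _ _ (by simp) (by simp))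

lemma decomposition [DecidableEq (Ideal (R k))] :
    Submodule.IsMinimalPrimaryDecomposition (entryIdeal (phi k))
      ({Ideal.span {(X 0 ^ 2 : R k), X 1 ^ 2}, Ideal.span {(X 0 ^ 3 : R k), X 1 ^ 4, X 2}} :
        Finset (Ideal (R k))) := by
  refine ⟨?_, ?_, ?_, ?_⟩
  · rw [Finset.inf_insert, Finset.inf_singleton]; exact inf_eq
  · intro J hJ
    rcases Finset.mem_insert.1 hJ with rfl | hJ
    · exact primary_Q1
    · rw [Finset.mem_singleton.1 hJ]; exact primary_Q2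
  · have hne : ((Ideal.span {(X 0 ^ 2 : R k), X 1 ^ 2}).colon Set.univ).radical ≠
        ((Ideal.span {(X 0 ^ 3 : R k), X 1 ^ 4, X 2}).colon Set.univ).radical := by
      rw [Submodule.colon_univ, Submodule.colon_univ, radical_Q1, radical_Q2]
      intro h
      apply z_not_mem (k := k)
      rw [h]
      exact Ideal.subset_span (by simp)
    rw [Finset.coe_pair]
    exact Set.pairwise_pair.2 fun _ => ⟨hne, hne.symm⟩
  · intro J hJ
    have key : ∀ Q : Ideal (R k), Q ∈ ({Ideal.span {(X 0 ^ 2 : R k), X 1 ^ 2},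
        Ideal.span {(X 0 ^ 3 : R k), X 1 ^ 4, X 2}} : Finset (Ideal (R k))) ↔
        Q = Ideal.span {(X 0 ^ 2 : R k), X 1 ^ 2} ∨
          Q = Ideal.span {(X 0 ^ 3 : R k), X 1 ^ 4, X 2} := by simp
    intro hle
    rcases (key J).1 hJ with rfl | rfl
    · refine Q2_not_le (le_trans ?_ hle)
      apply Finset.le_inf
      intro Q hQ
      simp only [Finset.mem_erase, key] at hQ
      exact (hQ.2.resolve_left hQ.1).ge
    · refine Q1_not_le (le_trans ?_ hle)
      apply Finset.le_inf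
      intro Q hQ
      simp only [Finset.mem_erase, key] at hQ
      exact (hQ.2.resolve_right hQ.1).ge

lemma admissible : Admissible (phi k) 3 4 := by
  classical
  have hX : ∀ i : Fin 3, (X i : R k).IsHomogeneous 1 := fun i => isHomogeneous_X _ _
  refine ⟨by norm_num, by norm_num, ?_, ?_, ?_, ?_, ?_⟩
  · intro i
    fin_cases i
    · exact isHomogeneous_X_pow _ _
    · exact (isHomogeneous_X_pow _ 2).mul (hX 2)
    · exact (isHomogeneous_X_pow _ 2).mul (hX 2)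
  · intro i
    fin_cases i
    · exact isHomogeneous_zero _ _ _
    · exact isHomogeneous_X_pow _ _
    · exact isHomogeneous_X_pow _ _
  · apply le_antisymm
    · apply height_le_two _ 0 1
      rw [minorIdeal, Ideal.span_le]
      rintro _ ⟨i, rfl⟩
      have hi : i = 0 ∨ i = 1 ∨ i = 2 := by fin_cases i <;> simp
      rcases hi with rfl | rfl | rfl
      · rw [minor0]
        exact Ideal.mem_span_pair.2 ⟨X 2 * X 0 ^ 5, -(X 2 * X 1 ^ 5), by ring⟩
      · rw [minor1]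
        exact Ideal.mem_span_pair.2 ⟨-X 0 ^ 6, 0, by ring⟩
      · rw [minor2]
        exact Ideal.mem_span_pair.2 ⟨X 0 ^ 2 * X 1 ^ 4, 0, by ring⟩
    · apply le_height_of_forall
      intro P hP hle
      have h0 : signedMinor (phi k) 0 ∈ P := hle (Ideal.subset_span ⟨0, rfl⟩)
      have h1 : signedMinor (phi k) 1 ∈ P := hle (Ideal.subset_span ⟨1, rfl⟩)
      rw [minor0] at h0
      rw [minor1, neg_mem_iff] at h1
      have hx : X 0 ∈ P := hP.mem_of_pow_mem 7 h1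
      rcases hP.mem_or_mem h0 with hz | hy
      · exact two_le_height_prime P (i := 0) (j := 2) (by decide) hx hz
      · have : (X 1 ^ 6 : R k) ∈ P := by
          have := sub_mem (Ideal.pow_mem_of_mem P hx 6 (by norm_num)) hy
          simpa using this
        exact two_le_height_prime P (i := 0) (j := 1) (by decide) hx (hP.mem_of_pow_mem 6 this)
  · apply le_antisymm
    · rw [← height_Q1 (k := k), ← inf_eq]
      exact Ideal.height_mono inf_le_left
    · apply le_height_of_forall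
      intro P hP hle
      have e1 : (X 0 ^ 3 : R k) ∈ P := hle (entry_mem 0 0)
      have e4 : (X 1 ^ 4 : R k) ∈ P := hle (entry_mem 1 1)
      exact two_le_height_prime P (i := 0) (j := 1) (by decide)
        (hP.mem_of_pow_mem 3 e1) (hP.mem_of_pow_mem 4 e4)
  · refine ⟨_, decomposition, X 0 ^ 2, X 1 ^ 2, 2, 2, isHomogeneous_X_pow _ _,
      isHomogeneous_X_pow _ _, isRegular_x2_y2, ?_⟩
    have : {Q : Ideal (R k) | Q ∈ ({Ideal.span {(X 0 ^ 2 : R k), X 1 ^ 2},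
        Ideal.span {(X 0 ^ 3 : R k), X 1 ^ 4, X 2}} : Finset (Ideal (R k))) ∧ Q.height = 2} =
        {Ideal.span {(X 0 ^ 2 : R k), X 1 ^ 2}} := by
      ext Q
      simp only [Finset.mem_insert, Finset.mem_singleton, Set.mem_ofPred_eq, Set.mem_singleton_iff]
      constructor
      · rintro ⟨rfl | rfl, h⟩
        · rfl
        · exact absurd h height_Q2
      · rintro rfl
        exact ⟨Or.inl rfl, height_Q1⟩
    rw [this, sInf_singleton]

section
open IsBihom

lemma bx : IsBihom (x k) 1 0 := CX 0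
lemma b_y : IsBihom (y k) 1 0 := CX 1
lemma bz : IsBihom (z k) 1 0 := CX 2
lemma bt : IsBihom (t k) 0 1 := T 0
lemma bu : IsBihom (u k) 0 1 := T 1
lemma bv : IsBihom (v k) 0 1 := T 2
lemma bw : IsBihom (x k * t k + z k * u k) 1 1 := (bx.mul bt).add (bz.mul bu)

lemma bihom_h1 : IsBihom (h1 k) 3 2 :=
  (bw.mul ((b_y.pow 2).mul bu)).sub ((bz.mul bv).mul ((bx.pow 2).mul bv))

lemma bc21 : IsBihom (y k ^ 2 * t k * u k - x k * z k * v k ^ 2) 2 2 :=
  (((b_y.pow 2).mul bt).mul bu).sub ((bx.mul bz).mul (bv.pow 2))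

lemma bc11 : IsBihom (x k ^ 2 * t k + x k * z k * u k) 2 1 :=
  ((bx.pow 2).mul bt).add ((bx.mul bz).mul bu)

lemma bihom_h2 : IsBihom (h2 k) 2 3 := (bc11.mul (bu.pow 2)).sub (bv.mul bc21)

lemma bihom_h3 : IsBihom (h3 k) 2 3 :=
  (bw.mul (bw.mul bu)).sub ((bz.mul bv).mul (bz.mul (bv.pow 2)).neg)

lemma sylv_h1 : IsSylvester ![f k, g k] ![X 0 ^ 2, X 1 ^ 2] (h1 k) := by
  refine ⟨?_, !![x k * t k + z k * u k, z k * v k; x k ^ 2 * v k, y k ^ 2 * u k], ?_, ?_, ?_⟩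
  · intro j; fin_cases j <;> exact ⟨2, by norm_num, isHomogeneous_X_pow _ _⟩
  · intro i j
    fin_cases i <;> fin_cases j
    · exact ⟨_, _, bw⟩
    · exact ⟨_, _, bz.mul bv⟩
    · exact ⟨_, _, (bx.pow 2).mul bv⟩
    · exact ⟨_, _, (b_y.pow 2).mul bu⟩
  · intro i
    fin_cases i <;> simp [Fin.sum_univ_two, f, g] <;> ring
  · simp [Matrix.det_fin_two, h1]

lemma sylv_h2 : IsSylvester ![f k, h1 k] ![X 0, X 1 ^ 2 * X 2] (h2 k) := by
  refine ⟨?_, !![x k ^ 2 * t k + x k * z k * u k, v k;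
    y k ^ 2 * t k * u k - x k * z k * v k ^ 2, u k ^ 2], ?_, ?_, ?_⟩
  · intro j
    fin_cases j
    · exact ⟨1, by norm_num, isHomogeneous_X _ _⟩
    · exact ⟨3, by norm_num, (isHomogeneous_X_pow _ 2).mul (isHomogeneous_X _ _)⟩
  · intro i j
    fin_cases i <;> fin_cases j
    · exact ⟨_, _, bc11⟩
    · exact ⟨_, _, bv⟩
    · exact ⟨_, _, bc21⟩
    · exact ⟨_, _, bu.pow 2⟩
  · intro i
    fin_cases i <;> simp [Fin.sum_univ_two, f, h1] <;> ring
  · simp [Matrix.det_fin_two, h2]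

lemma sylv_h3 : IsSylvester ![f k, h1 k] ![X 0 ^ 2, X 1 ^ 2] (h3 k) := by
  refine ⟨?_, !![x k * t k + z k * u k, z k * v k;
    -(z k * v k ^ 2), (x k * t k + z k * u k) * u k], ?_, ?_, ?_⟩
  · intro j; fin_cases j <;> exact ⟨2, by norm_num, isHomogeneous_X_pow _ _⟩
  · intro i j
    fin_cases i <;> fin_cases j
    · exact ⟨_, _, bw⟩
    · exact ⟨_, _, bz.mul bv⟩
    · exact ⟨_, _, (bz.mul (bv.pow 2)).neg⟩
    · exact ⟨_, _, bw.mul bu⟩
  · intro i
    fin_cases i <;> simp [Fin.sum_univ_two, f, h1] <;> ring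
  · simp [Matrix.det_fin_two, h3]

end

end Pool.Agent.Lib.MP_2a35bd_al.ExA
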