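import Pool.Agent.Lib.MP_2a35bd_al.Defs

/-!
Iterated Sylvester forms starting with `{f, g}`.
-/

namespace Pool.Agent.Lib.MP_2a35bd_al

open MvPolynomial

variable {k : Type*} [Field k]

/-- `Iter φ h`: `h` is `f`, `g` or an iterated Sylvester form starting with `{f, g}`.
A step takes a nonempty finite set `{F₀, …, F_s}` of (pairwise distinct, nonzero) elements
obtained before, forms `a₀, …, a_s ∈ R` of positive degree and bihomogeneous `cᵢⱼ ∈ S` with
`Fᵢ = ∑ⱼ cᵢⱼ aⱼ`, the entries of each row having one and the same degree in the `tᵢ`; it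
produces `det (cᵢⱼ)`. -/
inductive Iter (φ : Matrix (Fin 3) (Fin 2) (R k)) : S k → Prop
  | syz (j : Fin 2) : Iter φ (syzForm φ j)
  | sylv (s : ℕ) (F : Fin (s + 1) → S k) (a : Fin (s + 1) → R k)
      (c : Matrix (Fin (s + 1)) (Fin (s + 1)) (S k))
      (hF : ∀ i, Iter φ (F i)) (hinj : Function.Injective F) (hne : ∀ i, F i ≠ 0)
      (ha : ∀ j, ∃ e, 0 < e ∧ (a j).IsHomogeneous e)
      (hc : ∀ i, ∃ q, ∀ j, ∃ p, IsBihom (c i j) p q)
      (hFc : ∀ i, F i = ∑ j, c i j * C (a j)) : Iter φ c.det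

end Pool.Agent.Lib.MP_2a35bd_al
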