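import Pool.Agent.Lib.MP_2a35bd_al.Q1Ref
import Pool.Agent.Lib.MP_2a35bd_al.ExA3

/-!
Column operations, the standing hypotheses for the example, and the conclusion.
-/

namespace Pool.Agent.Lib.MP_2a35bd_al.ExB

open MvPolynomial

variable {k : Type*} [Field k]

lemma col_apply (φ : Matrix (Fin 3) (Fin 2) (R k)) (M : Matrix (Fin 2) (Fin 2) k) (i : Fin 3)
    (j : Fin 2) : (φ * M.map (C : k → R k)) i j = φ i 0 * C (M 0 j) + φ i 1 * C (M 1 j) := by
  simp [Matrix.mul_apply, Fin.sum_univ_two]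

lemma minor_col (φ : Matrix (Fin 3) (Fin 2) (R k)) (M : Matrix (Fin 2) (Fin 2) k) (i : Fin 3) :
    signedMinor (φ * M.map (C : k → R k)) i = C M.det * signedMinor φ i := by
  simp only [signedMinor, Matrix.det_fin_two, Matrix.submatrix_apply, id, col_apply, map_sub,
    map_mul]
  ring

lemma syz_col (φ : Matrix (Fin 3) (Fin 2) (R k)) (M : Matrix (Fin 2) (Fin 2) k) (j : Fin 2) :
    syzForm (φ * M.map (C : k → R k)) j =
      C (C (M 0 j)) * syzForm φ 0 + C (C (M 1 j)) * syzForm φ 1 := by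
  simp only [syzForm, col_apply, Fin.sum_univ_three, map_add, map_mul]
  ring

lemma rees_col (φ : Matrix (Fin 3) (Fin 2) (R k)) (M : Matrix (Fin 2) (Fin 2) k)
    (hM : M.det ≠ 0) : reesIdeal (φ * M.map (C : k → R k)) = reesIdeal φ := by
  ext F
  have e : (aeval (fun i => Polynomial.C (signedMinor (φ * M.map (C : k → R k)) i) *
      Polynomial.X) : S k →ₐ[R k] Polynomial (R k)) =
      (Polynomial.aeval (Polynomial.C (C M.det : R k) * Polynomial.X)).comp
        (aeval (fun i => Polynomial.C (signedMinor φ i) * Polynomial.X)) := by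
    apply MvPolynomial.algHom_ext
    intro i
    simp only [aeval_X, minor_col, AlgHom.comp_apply, map_mul, Polynomial.aeval_C,
      Polynomial.aeval_X, Polynomial.algebraMap_eq]
    ring
  simp only [reesIdeal, RingHom.mem_ker]
  rw [e, AlgHom.comp_apply]
  exact Polynomial.comp_C_mul_X_eq_zero_iff
    (mem_nonZeroDivisors_of_ne_zero (by simpa using hM))

lemma minorIdeal_col (φ : Matrix (Fin 3) (Fin 2) (R k)) (M : Matrix (Fin 2) (Fin 2) k)
    (hM : M.det ≠ 0) : minorIdeal (φ * M.map (C : k → R k)) = minorIdeal φ := by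
  apply le_antisymm <;> rw [minorIdeal, Ideal.span_le] <;> rintro _ ⟨i, rfl⟩
  · rw [minor_col]
    exact Ideal.mul_mem_left _ _ (Ideal.subset_span ⟨i, rfl⟩)
  · have : signedMinor φ i = C M.det⁻¹ * signedMinor (φ * M.map (C : k → R k)) i := by
      rw [minor_col, ← mul_assoc, ← map_mul, inv_mul_cancel₀ hM, map_one, one_mul]
    rw [this]
    exact Ideal.mul_mem_left _ _ (Ideal.subset_span ⟨i, rfl⟩)

lemma entry_col_le (φ : Matrix (Fin 3) (Fin 2) (R k)) (M : Matrix (Fin 2) (Fin 2) k) :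
    entryIdeal (φ * M.map (C : k → R k)) ≤ entryIdeal φ := by
  rw [entryIdeal, Ideal.span_le]
  rintro _ ⟨i, j, rfl⟩
  rw [col_apply]
  exact add_mem (Ideal.mul_mem_right _ _ (Ideal.subset_span ⟨i, 0, rfl⟩))
    (Ideal.mul_mem_right _ _ (Ideal.subset_span ⟨i, 1, rfl⟩))

lemma entry_col (φ : Matrix (Fin 3) (Fin 2) (R k)) (M : Matrix (Fin 2) (Fin 2) k)
    (hM : M.det ≠ 0) : entryIdeal (φ * M.map (C : k → R k)) = entryIdeal φ := by
  refine le_antisymm (entry_col_le φ M) ?_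
  have := entry_col_le (φ * M.map (C : k → R k)) M⁻¹
  rwa [Matrix.mul_assoc, ← Matrix.map_mul (f := (C : k →+* R k)),
    Matrix.mul_nonsing_inv _ (isUnit_iff_ne_zero.2 hM),
    Matrix.map_one _ (map_zero _) (map_one _), Matrix.mul_one] at this

lemma adm_col {φ : Matrix (Fin 3) (Fin 2) (R k)} {d : ℕ} (h : Admissible φ d d)
    (M : Matrix (Fin 2) (Fin 2) k) (hM : M.det ≠ 0) :
    Admissible (φ * M.map (C : k → R k)) d d := by
  have hh : ∀ i j, ((φ * M.map (C : k → R k)) i j).IsHomogeneous d := fun i j => by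
    rw [col_apply]
    exact ((h.hom₁ i).mul (isHomogeneous_C _ _)).add ((h.hom₂ i).mul (isHomogeneous_C _ _))
  refine ⟨h.two_le, h.le, fun i => hh i 0, fun i => hh i 1, ?_, ?_, ?_⟩
  · rw [minorIdeal_col φ M hM]; exact h.height_minors
  · rw [entry_col φ M hM]; exact h.height_entries
  · rw [entry_col φ M hM]; exact h.component

lemma entry_mem (i : Fin 3) (j : Fin 2) : phi k i j ∈ entryIdeal (phi k) :=
  Ideal.subset_span ⟨i, j, rfl⟩

lemma entry_le_Q1 : entryIdeal (phi k) ≤ Ideal.span {(X 0 ^ 2 : R k), X 1 ^ 2} := by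
  rw [entryIdeal, Ideal.span_le]
  rintro _ ⟨i, j, rfl⟩
  rw [SetLike.mem_coe, Ideal.mem_span_pair]
  fin_cases i <;> fin_cases j
  · exact ⟨X 1 ^ 3, X 1 ^ 3, by simp [phi]; ring⟩
  · exact ⟨X 2 ^ 3, 0, by simp [phi]; ring⟩
  · exact ⟨0, X 1 ^ 3, by simp [phi]; ring⟩
  · exact ⟨0, X 2 ^ 3, by simp [phi]; ring⟩
  · exact ⟨X 0 ^ 2 * X 2, X 1 ^ 3, by simp [phi]; ring⟩
  · exact ⟨X 0 ^ 3, X 1 ^ 2 * X 2, by simp [phi]; ring⟩

variable (k) in
/-- The embedded component. -/
noncomputable def Q2 : Ideal (R k) := entryIdeal (phi k) ⊔ Ideal.span {X 2 ^ 3}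

lemma xyz_mem (P : Ideal (R k)) (hP : P.IsRadical) (h : Q2 k ≤ P) :
    X 0 ∈ P ∧ X 1 ∈ P ∧ X 2 ∈ P := by
  have hy : X 1 ∈ P := hP ⟨5, h (Ideal.mem_sup_left (entry_mem 1 0))⟩
  have hz : X 2 ∈ P := hP ⟨3, h (Ideal.mem_sup_right (Ideal.subset_span rfl))⟩
  have hx : (X 0 ^ 5 + X 1 ^ 4 * X 2 : R k) ∈ P := h (Ideal.mem_sup_left (entry_mem 2 1))
  refine ⟨hP ⟨5, ?_⟩, hy, hz⟩
  have := sub_mem hx (Ideal.mul_mem_left _ (X 1 ^ 4) hz)
  rwa [add_sub_cancel_right] at this

lemma radical_Q2 : (Q2 k).radical = Ideal.span {(X 0 : R k), X 1, X 2} := by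
  apply le_antisymm
  · rw [isMaximal_span_xyz.isPrime.radical_le_iff, Q2, sup_le_iff]
    constructor
    · refine entry_le_Q1.trans ?_
      rw [Ideal.span_le]
      rintro _ (rfl | rfl) <;>
        exact Ideal.pow_mem_of_mem _ (Ideal.subset_span (by simp)) 2 (by norm_num)
    · rw [Ideal.span_le]
      rintro _ rfl
      exact Ideal.pow_mem_of_mem _ (Ideal.subset_span (by simp)) 3 (by norm_num)
  · obtain ⟨h0, h1, h2⟩ := xyz_mem (Q2 k).radical (Ideal.radical_isRadical _) Ideal.le_radical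
    rw [Ideal.span_le]
    rintro _ (rfl | rfl | rfl) <;> assumption

lemma z3_not_mem : (X 2 ^ 3 : R k) ∉ Ideal.span {(X 0 : R k), X 1} := fun h =>
  ExA.z_not_mem (isPrime_span_xy.mem_of_pow_mem 3 h)

lemma inf_eq : Ideal.span {(X 0 ^ 2 : R k), X 1 ^ 2} ⊓ Q2 k = entryIdeal (phi k) := by
  refine le_antisymm ?_ (le_inf entry_le_Q1 le_sup_left)
  rintro r ⟨hr1, hr2⟩
  obtain ⟨a, ha, b, hb, rfl⟩ := Submodule.mem_sup.1 hr2
  obtain ⟨c, rfl⟩ := Ideal.mem_span_singleton'.1 hb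
  have hc : c * X 2 ^ 3 ∈ Ideal.span {(X 0 ^ 2 : R k), X 1 ^ 2} := by
    simpa using sub_mem hr1 (entry_le_Q1 ha)
  obtain ⟨p, q, rfl⟩ := Ideal.mem_span_pair.1 (ExA.Q1_aux c _ z3_not_mem hc)
  have e1 : (X 0 ^ 2 * X 2 ^ 3 : R k) ∈ entryIdeal (phi k) := entry_mem 0 1
  have e2 : (X 1 ^ 2 * X 2 ^ 3 : R k) ∈ entryIdeal (phi k) := entry_mem 1 1
  rw [show (p * X 0 ^ 2 + q * X 1 ^ 2) * X 2 ^ 3 =
    p * (X 0 ^ 2 * X 2 ^ 3) + q * (X 1 ^ 2 * X 2 ^ 3) by ring]
  exact add_mem ha (add_mem (Ideal.mul_mem_left _ _ e1) (Ideal.mul_mem_left _ _ e2))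

lemma Q1_not_le : ¬ Ideal.span {(X 0 ^ 2 : R k), X 1 ^ 2} ≤ Q2 k := by
  intro h
  have h1 : (X 0 ^ 2 : R k) ∈ Q2 k := h (Ideal.subset_span (by simp))
  have : Q2 k ≤ (Ideal.span {(Polynomial.X : Polynomial k) ^ 5}).comap
      (aeval ![(Polynomial.X : Polynomial k), 0, 0] : R k →ₐ[k] Polynomial k) := by
    rw [Q2, sup_le_iff, entryIdeal, Ideal.span_le, Ideal.span_le]
    constructor
    · rintro _ ⟨i, j, rfl⟩
      fin_cases i <;> fin_cases j <;> simp [phi]
    · rintro _ rfl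
      simp
  have := this h1
  rw [Ideal.mem_comap, Ideal.mem_span_singleton, map_pow, aeval_X] at this
  have := Polynomial.X_pow_dvd_iff.1 this 2 (by norm_num)
  simp at this

lemma Q2_not_le : ¬ Q2 k ≤ Ideal.span {(X 0 ^ 2 : R k), X 1 ^ 2} := fun h =>
  z3_not_mem (ExA.radical_Q1 (k := k) ▸
    Ideal.le_radical (h (Ideal.mem_sup_right (Ideal.subset_span rfl))))

lemma height_Q2 : (Q2 k).height ≠ 2 := by
  have : 3 ≤ (Q2 k).height := by
    apply le_height_of_forall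
    intro P hP hle
    obtain ⟨h0, h1, h2⟩ := xyz_mem P hP.isRadical hle
    exact three_le_height_prime P h0 h1 h2
  intro h
  rw [h] at this
  exact absurd this (by decide)

lemma decomposition [DecidableEq (Ideal (R k))] :
    Submodule.IsMinimalPrimaryDecomposition (entryIdeal (phi k))
      ({Ideal.span {(X 0 ^ 2 : R k), X 1 ^ 2}, Q2 k} : Finset (Ideal (R k))) := by
  refine ⟨?_, ?_, ?_, ?_⟩
  · rw [Finset.inf_insert, Finset.inf_singleton]; exact inf_eq
  · intro J hJ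
    rcases Finset.mem_insert.1 hJ with rfl | hJ
    · exact ExA.primary_Q1
    · rw [Finset.mem_singleton.1 hJ]
      exact Ideal.isPrimary_of_isMaximal_radical (radical_Q2 (k := k) ▸ isMaximal_span_xyz)
  · have hne : ((Ideal.span {(X 0 ^ 2 : R k), X 1 ^ 2}).colon Set.univ).radical ≠
        ((Q2 k).colon Set.univ).radical := by
      rw [Submodule.colon_univ, Submodule.colon_univ, ExA.radical_Q1, radical_Q2]
      intro h
      apply ExA.z_not_mem (k := k)
      rw [h]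
      exact Ideal.subset_span (by simp)
    rw [Finset.coe_pair]
    exact Set.pairwise_pair.2 fun _ => ⟨hne, hne.symm⟩
  · intro J hJ
    have key : ∀ Q : Ideal (R k), Q ∈ ({Ideal.span {(X 0 ^ 2 : R k), X 1 ^ 2}, Q2 k} :
        Finset (Ideal (R k))) ↔ Q = Ideal.span {(X 0 ^ 2 : R k), X 1 ^ 2} ∨ Q = Q2 k := by simp
    intro hle
    rcases (key J).1 hJ with rfl | rfl
    · refine Q2_not_le (le_trans ?_ hle)
      apply Finset.le_inf
      intro Q hQ
      simp only [Finset.mem_erase, key] at hQ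
      exact (hQ.2.resolve_left hQ.1).ge
    · refine Q1_not_le (le_trans ?_ hle)
      apply Finset.le_inf
      intro Q hQ
      simp only [Finset.mem_erase, key] at hQ
      exact (hQ.2.resolve_right hQ.1).ge

lemma height_minors : (minorIdeal (phi k)).height = 2 := by
  apply le_antisymm
  · apply height_le_two _ 0 1
    rw [minorIdeal, Ideal.span_le]
    rintro _ ⟨i, rfl⟩
    have h : entryIdeal (phi k) ≤ Ideal.span {(X 0 : R k), X 1} :=
      entry_le_Q1.trans (ExA.radical_Q1 (k := k) ▸ Ideal.le_radical)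
    rw [SetLike.mem_coe, signedMinor, Matrix.det_fin_two]
    exact Ideal.mul_mem_left _ _ (sub_mem (Ideal.mul_mem_right _ _ (h (entry_mem _ _)))
      (Ideal.mul_mem_right _ _ (h (entry_mem _ _))))
  · apply le_height_of_forall
    intro P hP hle
    have h0 : signedMinor (phi k) 0 ∈ P := hle (Ideal.subset_span ⟨0, rfl⟩)
    have h1 : signedMinor (phi k) 1 ∈ P := hle (Ideal.subset_span ⟨1, rfl⟩)
    have h2 : signedMinor (phi k) 2 ∈ P := hle (Ideal.subset_span ⟨2, rfl⟩)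
    rw [minor0] at h0
    rw [minor1] at h1
    rw [minor2] at h2
    rcases hP.mem_or_mem h2 with hy | hz
    · have hy := hP.mem_of_pow_mem 7 hy
      have : (X 0 ^ 6 * X 2 ^ 4 : R k) ∈ P := by
        have := add_mem h1 (Ideal.mul_mem_left _ (X 0 ^ 7 * X 1 ^ 2 + X 0 ^ 5 * X 1 ^ 4 +
          X 0 ^ 2 * X 1 ^ 6 * X 2 - X 0 ^ 2 * X 1 ^ 4 * X 2 ^ 3 + X 1 ^ 8 * X 2) hy)
        convert this using 1
        ring
      rcases hP.mem_or_mem this with hx | hz
      · exact two_le_height_prime P (i := 0) (j := 1) (by decide) (hP.mem_of_pow_mem 6 hx) hy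
      · exact two_le_height_prime P (i := 1) (j := 2) (by decide) hy (hP.mem_of_pow_mem 4 hz)
    · have hz := hP.mem_of_pow_mem 3 hz
      have : (X 0 ^ 5 * X 1 ^ 5 : R k) ∈ P := by
        have := add_mem h0 (Ideal.mul_mem_left _ (X 0 ^ 4 * X 1 ^ 2 * X 2 ^ 3 - X 1 ^ 9 +
          X 1 ^ 7 * X 2 ^ 2) hz)
        convert this using 1
        ring
      rcases hP.mem_or_mem this with hx | hy
      · exact two_le_height_prime P (i := 0) (j := 2) (by decide) (hP.mem_of_pow_mem 5 hx) hz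
      · exact two_le_height_prime P (i := 1) (j := 2) (by decide) (hP.mem_of_pow_mem 5 hy) hz

lemma admissible : Admissible (phi k) 5 5 := by
  classical
  have hX : ∀ i : Fin 3, (X i : R k).IsHomogeneous 1 := fun i => isHomogeneous_X _ _
  have hp : ∀ (i : Fin 3) (n : ℕ), (X i ^ n : R k).IsHomogeneous n := fun i n =>
    isHomogeneous_X_pow _ _
  refine ⟨by norm_num, by norm_num, ?_, ?_, height_minors, ?_, ?_⟩
  · intro i
    fin_cases i
    · exact ((hp 0 2).mul (hp 1 3)).add (hp 1 5)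
    · exact hp 1 5
    · exact ((hp 0 4).mul (hX 2)).add (hp 1 5)
  · intro i
    fin_cases i
    · exact (hp 0 2).mul (hp 2 3)
    · exact (hp 1 2).mul (hp 2 3)
    · exact (hp 0 5).add ((hp 1 4).mul (hX 2))
  · apply le_antisymm
    · rw [← ExA.height_Q1 (k := k), ← inf_eq]
      exact Ideal.height_mono inf_le_left
    · rw [← height_minors (k := k)]
      apply Ideal.height_mono
      rw [minorIdeal, Ideal.span_le]
      rintro _ ⟨i, rfl⟩
      rw [SetLike.mem_coe, signedMinor, Matrix.det_fin_two]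
      exact Ideal.mul_mem_left _ _ (sub_mem (Ideal.mul_mem_right _ _ (entry_mem _ _))
        (Ideal.mul_mem_right _ _ (entry_mem _ _)))
  · refine ⟨_, decomposition, X 0 ^ 2, X 1 ^ 2, 2, 2, hp _ _, hp _ _, ExA.isRegular_x2_y2, ?_⟩
    have : {Q : Ideal (R k) | Q ∈ ({Ideal.span {(X 0 ^ 2 : R k), X 1 ^ 2}, Q2 k} :
        Finset (Ideal (R k))) ∧ Q.height = 2} = {Ideal.span {(X 0 ^ 2 : R k), X 1 ^ 2}} := by
      ext Q
      simp only [Finset.mem_insert, Finset.mem_singleton, Set.mem_ofPred_eq, Set.mem_singleton_iff]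
      constructor
      · rintro ⟨rfl | rfl, h⟩
        · rfl
        · exact absurd h height_Q2
      · rintro rfl
        exact ⟨Or.inl rfl, ExA.height_Q1⟩
    rw [this, sInf_singleton]

theorem main (M : Matrix (Fin 2) (Fin 2) k) (hM : M.det ≠ 0) :
    Admissible (phi k * M.map (C : k → R k)) 5 5 ∧
      ∀ G : Set (S k),
        (∀ h ∈ G, Iter (phi k * M.map (C : k → R k)) h ∧ ∃ p q, IsBihom h p q) →
        Ideal.span G ≠ reesIdeal (phi k * M.map (C : k → R k)) := by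
  have hA := adm_col (admissible (k := k)) M hM
  refine ⟨hA, fun G hG hs => ?_⟩
  rw [rees_col _ M hM] at hs
  obtain ⟨c, hc, hcG⟩ := exists_gen G (fun h hh => (hG h hh).2) hs
  obtain ⟨-, q, -, hq, -, h3⟩ := (hG _ hcG).1.inv hA.height_minors
  have hne : C (C c) * H k ≠ 0 := mul_ne_zero (by simpa using hc) H_ne
  obtain ⟨j, w, α, β, F, hw, hF, hF2, hβ, e⟩ :=
    h3 (hq.inj_right ((isHomogeneous_C _ _).mul bihom_H.1) hne)
  rw [rees_col _ M hM] at hF
  rw [syz_col, syz0, syz1] at e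
  refine not_split (M 0 j) (M 1 j) c ?_ hc w hw α β F hF hF2 hβ e
  by_contra hcon
  push Not at hcon
  apply hM
  rw [Matrix.det_fin_two]
  fin_cases j <;> simp_all

end Pool.Agent.Lib.MP_2a35bd_al.ExB
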