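import Pool.Agent.Lib.MP_2a35bd_al.IterDef

/-!
An invariant of iterated Sylvester forms.
-/

namespace Pool.Agent.Lib.MP_2a35bd_al

open MvPolynomial

variable {k : Type*} [Field k]

lemma sum_minor (φ : Matrix (Fin 3) (Fin 2) (R k)) (j : Fin 2) :
    ∑ i, φ i j * signedMinor φ i = 0 := by
  fin_cases j <;>
    simp [signedMinor, Fin.sum_univ_three, Matrix.det_fin_two, Fin.succAbove] <;> ring

lemma syz_mem (φ : Matrix (Fin 3) (Fin 2) (R k)) (j : Fin 2) : syzForm φ j ∈ reesIdeal φ := by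
  have h := congrArg (fun r => Polynomial.C r * Polynomial.X) (sum_minor φ j)
  simp only [map_sum, map_mul, Finset.sum_mul, map_zero, zero_mul] at h
  simp only [reesIdeal, RingHom.mem_ker, syzForm, map_sum, map_mul, aeval_C, aeval_X,
    Polynomial.algebraMap_eq]
  rw [← h]
  exact Finset.sum_congr rfl fun i _ => by ring

lemma syz_hom (φ : Matrix (Fin 3) (Fin 2) (R k)) (j : Fin 2) : (syzForm φ j).IsHomogeneous 1 :=
  IsHomogeneous.sum _ _ _ fun _ _ => isHomogeneous_C_mul_X _ _

lemma mem_of_C_mul {φ : Matrix (Fin 3) (Fin 2) (R k)} {a : R k} (ha : a ≠ 0) {h : S k}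
    (H : C a * h ∈ reesIdeal φ) : h ∈ reesIdeal φ := by
  simp only [reesIdeal, RingHom.mem_ker, map_mul, aeval_C, Polynomial.algebraMap_eq] at H ⊢
  exact (mul_eq_zero.1 H).resolve_left (Polynomial.C_ne_zero.2 ha)

lemma coeff_syz (φ : Matrix (Fin 3) (Fin 2) (R k)) (j : Fin 2) (i : Fin 3) :
    coeff (Finsupp.single i 1) (syzForm φ j) = φ i j := by
  classical
  simp only [syzForm, coeff_sum, coeff_C_mul, coeff_X]
  rw [Finset.sum_eq_single i]
  · simp
  · intro b _ hb
    rw [if_neg, mul_zero]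
    rwa [Finsupp.single_left_inj one_ne_zero]
  · simp

lemma syz_ne_mul {φ : Matrix (Fin 3) (Fin 2) (R k)} (hφ : (minorIdeal φ).height = 2)
    (j : Fin 2) (a : R k) (e : ℕ) (he : 0 < e) (ha : a.IsHomogeneous e) (c : S k) :
    syzForm φ j ≠ c * C a := by
  intro h
  have hd : ∀ i, a ∣ φ i j := fun i => by
    rw [← coeff_syz φ j i, h, mul_comm, coeff_C_mul]
    exact dvd_mul_right _ _
  have hu : ¬ IsUnit a := fun hu => by
    have h1 : constantCoeff a = 0 := by
      rw [constantCoeff_eq]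
      exact ha.coeff_eq_zero (by simp; omega)
    have := hu.map constantCoeff
    rw [h1] at this
    exact not_isUnit_zero this
  have hle : minorIdeal φ ≤ Ideal.span {a} := by
    rw [minorIdeal, Ideal.span_le]
    rintro _ ⟨i, rfl⟩
    rw [SetLike.mem_coe, Ideal.mem_span_singleton, signedMinor, Matrix.det_fin_two]
    apply Dvd.dvd.mul_left
    fin_cases j
    · exact dvd_sub ((hd _).mul_right _) ((hd _).mul_left _)
    · exact dvd_sub ((hd _).mul_left _) ((hd _).mul_right _)
  have := (Ideal.height_mono hle).trans (Ideal.height_span_singleton_le_one hu)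
  rw [hφ] at this
  exact absurd this (by decide)

lemma det_hom {n : ℕ} (c : Matrix (Fin n) (Fin n) (S k)) (r : Fin n → ℕ)
    (hc : ∀ i j, (c i j).IsHomogeneous (r i)) : c.det.IsHomogeneous (∑ i, r i) := by
  rw [← Matrix.det_transpose, Matrix.det_apply']
  refine IsHomogeneous.sum _ _ _ fun σ _ => ?_
  have h1 : (∏ i, c.transpose (σ i) i).IsHomogeneous (∑ i, r i) :=
    IsHomogeneous.prod _ _ _ fun i _ => hc i (σ i)
  have h2 : (((Equiv.Perm.sign σ : ℤˣ) : ℤ) : S k).IsHomogeneous 0 := by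
    rw [← map_intCast (C : R k →+* S k)]
    exact isHomogeneous_C _ _
  simpa using h2.mul h1

lemma cramer_eq {n : ℕ} (c : Matrix (Fin n) (Fin n) (S k)) (F b : Fin n → S k)
    (h : ∀ i, F i = ∑ j, c i j * b j) (j : Fin n) :
    b j * c.det = ∑ i, c.adjugate j i * F i := by
  have h1 : c.mulVec b = F := funext fun i => (h i).symm
  have h2 := congrFun (congrArg (fun M => M.mulVec b) (Matrix.adjugate_mul c)) j
  simp only [← Matrix.mulVec_mulVec, h1, Matrix.smul_mulVec, Matrix.one_mulVec, Pi.smul_apply,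
    smul_eq_mul] at h2
  rw [mul_comm, ← h2]
  rfl

/-- A multiple of `h` by a nonzero element of `R` is a combination of `f` or `g` and of one
element of the Rees ideal of degree at most 2, the latter with a coefficient of degree at most 1. -/
def Split (φ : Matrix (Fin 3) (Fin 2) (R k)) (h : S k) : Prop :=
  ∃ (j : Fin 2) (w : R k) (α β F : S k), w ≠ 0 ∧ F ∈ reesIdeal φ ∧ F.totalDegree ≤ 2 ∧
    β.totalDegree ≤ 1 ∧ C w * h = α * syzForm φ j + β * F

def Inv (φ : Matrix (Fin 3) (Fin 2) (R k)) (h : S k) : Prop :=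
  h ∈ reesIdeal φ ∧ ∃ q, 1 ≤ q ∧ h.IsHomogeneous q ∧ (q = 1 → ∃ j, h = syzForm φ j) ∧
    (q = 3 → Split φ h)

theorem Iter.inv {φ : Matrix (Fin 3) (Fin 2) (R k)} (hφ : (minorIdeal φ).height = 2) {h : S k}
    (H : Iter φ h) : Inv φ h := by
  induction H with
  | syz j => exact ⟨syz_mem φ j, 1, le_rfl, syz_hom φ j, fun _ => ⟨j, rfl⟩, by omega⟩
  | sylv s F a c _ hinj hne ha hc hFc ih =>
    choose r hr using hc
    have hr' : ∀ i j, (c i j).IsHomogeneous (r i) := fun i j => (hr i j).choose_spec.1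
    have hFr : ∀ i, (F i).IsHomogeneous (r i) := fun i => by
      rw [hFc i]
      exact IsHomogeneous.sum _ _ _ fun j _ => by
        simpa using (hr' i j).mul (isHomogeneous_C _ (a j))
    have hI : ∀ i, F i ∈ reesIdeal φ := fun i => (ih i).1
    have hq : ∀ i, 1 ≤ r i ∧ (r i = 1 → ∃ j, F i = syzForm φ j) ∧ (r i = 3 → Split φ (F i)) :=
      fun i => by
        obtain ⟨q, h1, h2, h3, h4⟩ := (ih i).2
        obtain rfl := h2.inj_right (hFr i) (hne i)
        exact ⟨h1, h3, h4⟩
    obtain ⟨j₀, hj₀⟩ : ∃ j, a j ≠ 0 := by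
      by_contra hcon
      push Not at hcon
      apply hne 0
      rw [hFc 0]
      simp [hcon]
    have hcr := cramer_eq c F (fun j => C (a j)) hFc j₀
    have hsum : s + 1 ≤ ∑ i, r i := by
      have := Finset.card_nsmul_le_sum Finset.univ r 1 fun i _ => (hq i).1
      simpa using this
    refine ⟨mem_of_C_mul hj₀ ?_, ∑ i, r i, by omega, det_hom c r hr', ?_, ?_⟩
    · rw [hcr]
      exact Ideal.sum_mem _ fun i _ => Ideal.mul_mem_left _ _ (hI i)
    · intro h1
      obtain rfl : s = 0 := by omega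
      obtain ⟨j, hj⟩ := (hq 0).2.1 (by simpa using h1)
      obtain ⟨e, he, hae⟩ := ha 0
      refine absurd ?_ (syz_ne_mul hφ j (a 0) e he hae (c 0 0))
      rw [← hj, hFc 0]
      simp
    · intro h3
      have hs : s = 0 ∨ s = 1 ∨ s = 2 := by omega
      rcases hs with rfl | rfl | rfl
      · obtain ⟨j, w, α, β, G, hw, hG, hG2, hβ, e⟩ := (hq 0).2.2 (by simpa using h3)
        obtain rfl : j₀ = 0 := Subsingleton.elim (α := Fin 1) _ _
        refine ⟨j, w * a 0, α, β, G, mul_ne_zero hw hj₀, hG, hG2, hβ, ?_⟩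
        rw [← e, hFc 0, Matrix.det_fin_one, map_mul]
        simp
        ring
      · have hadj : (c.adjugate j₀ 0).totalDegree ≤ r 1 ∧
            (c.adjugate j₀ 1).totalDegree ≤ r 0 := by
          rw [Matrix.adjugate_fin_two]
          fin_cases j₀
          · exact ⟨(hr' 1 1).totalDegree_le, (hr' 0 1).neg.totalDegree_le⟩
          · exact ⟨(hr' 1 0).neg.totalDegree_le, (hr' 0 0).totalDegree_le⟩
        rw [Fin.sum_univ_two] at h3 hcr
        have h0 := (hq 0).1
        have h1 := (hq 1).1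
        have hcase : (r 0 = 1 ∧ r 1 = 2) ∨ (r 1 = 1 ∧ r 0 = 2) := by omega
        rcases hcase with ⟨e0, e1⟩ | ⟨e1, e0⟩
        · obtain ⟨j, hj⟩ := (hq 0).2.1 e0
          exact ⟨j, a j₀, _, _, F 1, hj₀, hI 1, e1 ▸ (hFr 1).totalDegree_le, e0 ▸ hadj.2,
            by rw [hcr, hj]⟩
        · obtain ⟨j, hj⟩ := (hq 1).2.1 e1
          exact ⟨j, a j₀, _, _, F 0, hj₀, hI 0, e0 ▸ (hFr 0).totalDegree_le, e1 ▸ hadj.1,
            by rw [hcr, hj, add_comm]⟩
      · exfalso
        rw [Fin.sum_univ_three] at h3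
        have h0 := (hq 0).1
        have h1 := (hq 1).1
        have h2 := (hq 2).1
        have hall : ∀ i, ∃ j, F i = syzForm φ j := fun i => (hq i).2.1 (by
          fin_cases i <;> simp <;> omega)
        choose g hg using hall
        have hg' : Function.Injective g := fun i i' e => hinj (by rw [hg, hg, e])
        have := Fintype.card_le_of_injective g hg'
        simp at this

end Pool.Agent.Lib.MP_2a35bd_al
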