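import Pool.Agent.Lib.MP_2a35bd_al.Q1Sat
import Pool.Agent.Lib.MP_2a35bd_al.Bihom

/-!
Every bihomogeneous generating set of the Rees ideal of the example contains a nonzero scalar
multiple of `H`.
-/

namespace Pool.Agent.Lib.MP_2a35bd_al.ExB

open MvPolynomial

variable (k : Type*) [Field k]

/-- Elements all of whose coefficients of bidegree at most `(4, 3)` vanish. -/
def J5 : Ideal (S k) where
  carrier := {F | ∀ j m : Fin 3 →₀ ℕ, j.degree ≤ 3 → m.degree ≤ 4 → coeff m (coeff j F) = 0}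
  add_mem' := fun {a b} ha hb j m hj hm => by
    rw [coeff_add, coeff_add, ha j m hj hm, hb j m hj hm, add_zero]
  zero_mem' := fun j m _ _ => by simp
  smul_mem' := fun c F hF j m hj hm => by
    classical
    rw [smul_eq_mul, coeff_mul, coeff_sum]
    refine Finset.sum_eq_zero fun p hp => ?_
    rw [coeff_mul]
    refine Finset.sum_eq_zero fun q hq => ?_
    have h1 := congrArg Finsupp.degree (Finset.HasAntidiagonal.mem_antidiagonal.1 hp)
    have h2 := congrArg Finsupp.degree (Finset.HasAntidiagonal.mem_antidiagonal.1 hq)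
    rw [map_add] at h1 h2
    rw [hF p.2 q.2 (by omega) (by omega), mul_zero]

variable {k}

lemma mem_J5 {F : S k} {p q : ℕ} (hF : IsBihom F p q) (h : 5 ≤ p ∨ 4 ≤ q) : F ∈ J5 k := by
  intro j m hj hm
  rcases h with h | h
  · exact (hF.2 j).coeff_eq_zero (by omega)
  · rw [hF.1.coeff_eq_zero (by omega), coeff_zero]

lemma coeff_high {F : S k} {p q : ℕ} (hF : IsBihom F p q) (hp : p ≤ 4) (hq : q ≤ 3)
    (j m : Fin 3 →₀ ℕ) (h : ¬ (j.degree ≤ 3 ∧ m.degree ≤ 4)) : coeff m (coeff j F) = 0 := by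
  by_cases hj : j.degree = q
  · exact (hF.2 j).coeff_eq_zero (by omega)
  · rw [hF.1.coeff_eq_zero hj, coeff_zero]

section
open IsBihom

lemma bx : IsBihom (x k) 1 0 := CX 0
lemma b_y : IsBihom (y k) 1 0 := CX 1
lemma bz : IsBihom (z k) 1 0 := CX 2
lemma bt : IsBihom (t k) 0 1 := T 0
lemma bu : IsBihom (u k) 0 1 := T 1
lemma bv : IsBihom (v k) 0 1 := T 2

lemma bihom_f : IsBihom (f k) 5 1 :=
  (((((bx.pow 2).mul (b_y.pow 3)).add (b_y.pow 5)).mul bt).add ((b_y.pow 5).mul bu)).add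
    ((((bx.pow 4).mul bz).add (b_y.pow 5)).mul bv)

lemma bihom_g : IsBihom (g k) 5 1 :=
  ((((bx.pow 2).mul (bz.pow 3)).mul bt).add (((b_y.pow 2).mul (bz.pow 3)).mul bu)).add
    (((bx.pow 5).add ((b_y.pow 4).mul bz)).mul bv)

lemma bihom_h1 : IsBihom (h1 k) 6 2 :=
  ((((b_y.pow 3).mul bt).add (((bx.pow 2).mul bz).mul bv)).mul
    (((bz.pow 3).mul bu).add (((b_y.pow 2).mul bz).mul bv))).sub
    (((b_y.pow 3).mul ((bt.add bu).add bv)).mul (((bz.pow 3).mul bt).add ((bx.pow 3).mul bv)))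

lemma bihom_H : IsBihom (H k) 4 3 :=
  ((((bt.pow 2).mul ((((bz.pow 3).mul b_y).mul (bt.add bv)).sub
    (((b_y.pow 3).mul bz).mul bv))).neg).sub
    ((bu.pow 2).mul (((bz.pow 4).sub (bx.mul (b_y.pow 3))).mul bv))).add
    ((((bx.pow 2).mul bt).sub ((b_y.pow 2).mul bu)).mul
      (((bz.pow 2).mul (bv.pow 2)).sub (((bx.mul b_y).mul bv).mul (bt.add bv))))

end

lemma H_ne : H k ≠ 0 := fun h => by
  have := congrArg (evS (k := k) ![0, 0, (1 : k)] ![0, 1, 1]) h
  simp [H] at this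

lemma eq_zero_of_low {F : S k} (hF : F ∈ J5 k)
    (h : ∀ j m : Fin 3 →₀ ℕ, ¬ (j.degree ≤ 3 ∧ m.degree ≤ 4) → coeff m (coeff j F) = 0) :
    F = 0 := by
  ext j m
  by_cases hjm : j.degree ≤ 3 ∧ m.degree ≤ 4
  · simpa using hF j m hjm.1 hjm.2
  · simpa using h j m hjm

lemma H_not_mem : H k ∉ J5 k := fun h =>
  H_ne (eq_zero_of_low h (coeff_high bihom_H le_rfl le_rfl))

lemma exists_const (a : S k) : ∃ c : k, (a - C (C c)) * H k ∈ J5 k := by
  have e : killS (k := k) (fun _ => true) (fun _ => true) =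
      ((C : R k →+* S k).comp (C : k →+* R k)).comp
        ((constantCoeff : R k →+* k).comp (constantCoeff : S k →+* R k)) := by
    apply MvPolynomial.ringHom_ext
    · intro r
      have e' : killR (k := k) (fun _ => true) = (C : k →+* R k).comp constantCoeff := by
        apply MvPolynomial.ringHom_ext
        · intro a; simp
        · intro i; simp
      simp [e']
    · intro i; simp
  have := sub_killS_mem (fun _ => true) (fun _ => true) ((J5 k).colon {H k})
    (fun i _ => Submodule.mem_colon_singleton.2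
      (mem_J5 ((IsBihom.CX i).mul bihom_H) (by norm_num)))
    (fun i _ => Submodule.mem_colon_singleton.2
      (mem_J5 ((IsBihom.T i).mul bihom_H) (by norm_num))) a
  rw [e] at this
  exact ⟨_, Submodule.mem_colon_singleton.1 this⟩

theorem exists_gen (G : Set (S k)) (hG : ∀ h ∈ G, ∃ p q, IsBihom h p q)
    (hs : Ideal.span G = reesIdeal (phi k)) : ∃ c : k, c ≠ 0 ∧ C (C c) * H k ∈ G := by
  obtain ⟨F, hFG, hF⟩ : ∃ F ∈ G, F ∉ J5 k := by
    by_contra hcon
    push Not at hcon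
    exact H_not_mem (Ideal.span_le.2 hcon (hs ▸ H_mem))
  obtain ⟨p, q, hb⟩ := hG F hFG
  have hpq : p ≤ 4 ∧ q ≤ 3 := by
    by_contra hcon
    exact hF (mem_J5 hb (by omega))
  obtain ⟨b1, b2, b3, b4, e⟩ := rees_le F (hs ▸ Ideal.subset_span hFG)
  obtain ⟨c, hc⟩ := exists_const b4
  have hm : F - C (C c) * H k ∈ J5 k := by
    have : F - C (C c) * H k = b1 * f k + b2 * g k + b3 * h1 k + (b4 - C (C c)) * H k := by
      rw [e]; ring
    rw [this]
    exact add_mem (add_mem (add_mem (Ideal.mul_mem_left _ _ (mem_J5 bihom_f (by norm_num)))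
      (Ideal.mul_mem_left _ _ (mem_J5 bihom_g (by norm_num))))
      (Ideal.mul_mem_left _ _ (mem_J5 bihom_h1 (by norm_num)))) hc
  have hH : IsBihom (C (C c) * H k) 4 3 := (IsBihom.C (isHomogeneous_C _ c)).mul bihom_H
  have h0 := eq_zero_of_low hm fun j m hjm => by
    rw [coeff_sub, coeff_sub, coeff_high hb hpq.1 hpq.2 j m hjm,
      coeff_high hH le_rfl le_rfl j m hjm, sub_zero]
  have hF' : F = C (C c) * H k := sub_eq_zero.1 h0
  refine ⟨c, ?_, hF' ▸ hFG⟩
  rintro rfl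
  apply hF
  rw [hF']
  simp

end Pool.Agent.Lib.MP_2a35bd_al.ExB
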