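import Pool.Agent.Lib.MP_2a35bd_al.Q1Low

/-!
No nonzero multiple of `H` is a combination of one element of the pencil of `f, g` and of one
quadratic element of the Rees ideal with a linear coefficient.
-/

namespace Pool.Agent.Lib.MP_2a35bd_al.ExB

open MvPolynomial

lemma eis {A : Type*} [CommRing A] [IsDomain A] [WfDvdMonoid A] {p μ c ν ρ : A} (hp : Prime p)
    (hμ : ¬ p ∣ μ) (hc : ¬ p ∣ c) (a b : A) (hb : b ≠ 0) :
    μ * p * a ^ 2 + p * ν * a * b + (μ * c + p * ρ) * b ^ 2 ≠ 0 := by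
  obtain ⟨n, b0, hb0, rfl⟩ := WfDvdMonoid.max_power_factor hb hp.irreducible
  clear hb
  induction n generalizing a with
  | zero =>
    intro h
    have : p ∣ μ * c * b0 ^ 2 :=
      ⟨-(μ * a ^ 2 + ν * a * b0 + ρ * b0 ^ 2), by linear_combination h⟩
    rcases hp.dvd_or_dvd this with h1 | h1
    · exact (hp.dvd_or_dvd h1).elim hμ hc
    · exact hb0 (hp.dvd_of_dvd_pow h1)
  | succ n ih =>
    intro h
    have h1 : μ * a ^ 2 = p * (-(ν * a * (p ^ n * b0)) - (μ * c + p * ρ) * (p ^ n * b0) ^ 2) := by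
      apply mul_left_cancel₀ hp.ne_zero
      linear_combination h
    obtain ⟨a', rfl⟩ := hp.dvd_of_dvd_pow ((hp.dvd_or_dvd ⟨_, h1⟩).resolve_left hμ)
    apply ih a'
    apply mul_left_cancel₀ (pow_ne_zero 2 hp.ne_zero)
    linear_combination h

lemma key_id {A : Type*} [CommRing A] (x y z l m a b t u v : A)
    (ht : t = -((l * (x ^ 4 * z + y ^ 5) + m * (x ^ 5 + y ^ 4 * z)) * b))
    (hu : u = (l * (x ^ 4 * z + y ^ 5) + m * (x ^ 5 + y ^ 4 * z)) * a)
    (hv : v = (l * (x ^ 2 * y ^ 3 + y ^ 5) + m * (x ^ 2 * z ^ 3)) * b -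
      (l * y ^ 5 + m * (y ^ 2 * z ^ 3)) * a) :
    -(t ^ 2 * (z ^ 3 * y * (t + v) - y ^ 3 * z * v)) - u ^ 2 * ((z ^ 4 - x * y ^ 3) * v) +
      (x ^ 2 * t - y ^ 2 * u) * (z ^ 2 * v ^ 2 - x * y * v * (t + v)) =
    -((l * (x ^ 4 * z + y ^ 5) + m * (x ^ 5 + y ^ 4 * z)) *
      ((l * y ^ 3 + m * z ^ 3) * (l * z + m * x) * a ^ 2 +
        (l * z + m * x) * (-(l * y ^ 3)) * a * b +
        ((l * y ^ 3 + m * z ^ 3) * (l * y + m * z) + (l * z + m * x) * (-(l * x ^ 2 * y))) *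
          b ^ 2) *
      ((x ^ 5 * y ^ 5 - x ^ 4 * y ^ 2 * z ^ 4 + y ^ 9 * z - y ^ 7 * z ^ 3) * a +
        (-(x ^ 7 * y ^ 3) + x ^ 6 * z ^ 4 - x ^ 5 * y ^ 5 - x ^ 2 * y ^ 7 * z +
          x ^ 2 * y ^ 5 * z ^ 3 - y ^ 9 * z) * b)) := by
  subst ht hu hv
  ring

variable {k : Type*} [Field k]

lemma prime_lin (l m : k) (h : l ≠ 0 ∨ m ≠ 0) : Prime (C l * X 2 + C m * X 0 : R k) := by
  have hne : (C l * X 2 + C m * X 0 : R k) ≠ 0 := fun e => by
    have e1 := congrArg (eval ![(0 : k), 0, 1]) e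
    have e2 := congrArg (eval ![(1 : k), 0, 0]) e
    simp at e1 e2
    tauto
  apply Irreducible.prime
  apply irreducible_of_totalDegree_eq_one
  · exact ((isHomogeneous_C_mul_X _ _).add (isHomogeneous_C_mul_X _ _)).totalDegree hne
  · intro r hr
    rw [isUnit_iff_ne_zero]
    rintro rfl
    apply hne
    ext i
    simpa using hr i

lemma not_dvd_lin (l m : k) (h : l ≠ 0 ∨ m ≠ 0) (n : ℕ) (hn : n ≠ 0) :
    ¬ (C l * X 2 + C m * X 0 : R k) ∣ C l * X 1 ^ n + C m * X 2 ^ n := by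
  by_cases hl : l = 0
  · subst hl
    exact not_dvd_of_ev (eval ![(0 : k), 0, 1]) (by simp) (by simpa [hn] using h)
  · exact not_dvd_of_ev (eval ![(0 : k), 1, 0]) (by simp) (by simpa [hn] using hl)

lemma quad_coeff {A : Type*} [CommRing A] (K p0 p1 p2 b0 b1 e1 e2 : A)
    (h : Polynomial.C K * (Polynomial.C p0 + Polynomial.C p1 * Polynomial.X +
      Polynomial.C p2 * Polynomial.X ^ 2) =
      (Polynomial.C b1 * Polynomial.X + Polynomial.C b0) *
        (Polynomial.C e2 * Polynomial.X + Polynomial.C e1)) :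
    K * p0 = b0 * e1 ∧ K * p1 = b0 * e2 + b1 * e1 ∧ K * p2 = b1 * e2 := by
  have h' : Polynomial.C (K * p0) + Polynomial.C (K * p1) * Polynomial.X +
      Polynomial.C (K * p2) * Polynomial.X ^ 2 =
      Polynomial.C (b0 * e1) + Polynomial.C (b0 * e2 + b1 * e1) * Polynomial.X +
      Polynomial.C (b1 * e2) * Polynomial.X ^ 2 := by
    simp only [map_mul, map_add]
    linear_combination h
  have h0 := congrArg (fun q => Polynomial.coeff q 0) h'
  have h1 := congrArg (fun q => Polynomial.coeff q 1) h'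
  have h2 := congrArg (fun q => Polynomial.coeff q 2) h'
  simp only [Polynomial.coeff_add, Polynomial.coeff_C_mul, Polynomial.coeff_X_pow,
    Polynomial.coeff_C, Polynomial.coeff_X] at h0 h1 h2
  norm_num at h0 h1 h2
  exact ⟨h0, h1, h2⟩

theorem not_split (l m c : k) (h : l ≠ 0 ∨ m ≠ 0) (hc : c ≠ 0) (w : R k) (hw : w ≠ 0)
    (α β F : S k) (hF : F ∈ reesIdeal (phi k)) (hF2 : F.totalDegree ≤ 2)
    (hβ : β.totalDegree ≤ 1) :
    C w * (C (C c) * H k) ≠ α * (C (C l) * f k + C (C m) * g k) + β * F := by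
  intro e
  obtain ⟨L1, hL1⟩ : ∃ L : R k,
    L = C l * (X 0 ^ 2 * X 1 ^ 3 + X 1 ^ 5) + C m * (X 0 ^ 2 * X 2 ^ 3) := ⟨_, rfl⟩
  obtain ⟨L2, hL2⟩ : ∃ L : R k, L = C l * X 1 ^ 5 + C m * (X 1 ^ 2 * X 2 ^ 3) := ⟨_, rfl⟩
  obtain ⟨L3, hL3⟩ : ∃ L : R k,
    L = C l * (X 0 ^ 4 * X 2 + X 1 ^ 5) + C m * (X 0 ^ 5 + X 1 ^ 4 * X 2) := ⟨_, rfl⟩
  obtain ⟨D1, hD1⟩ : ∃ D : R k, D = signedMinor (phi k) 0 := ⟨_, rfl⟩
  obtain ⟨D2, hD2⟩ : ∃ D : R k, D = signedMinor (phi k) 1 := ⟨_, rfl⟩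
  have hL3ne : L3 ≠ 0 := fun e => by
    rw [hL3] at e
    have e1 := congrArg (eval ![(0 : k), 1, 0]) e
    have e2 := congrArg (eval ![(1 : k), 0, 0]) e
    simp at e1 e2
    tauto
  have hD1ne : D1 ≠ 0 := fun e => by
    rw [hD1, minor0] at e
    have e1 := congrArg (eval ![(1 : k), 1, 0]) e
    simp at e1
  let P : Fin 3 → Polynomial (R k) :=
    ![-(Polynomial.C L3 * -Polynomial.C D1), Polynomial.C L3 * (Polynomial.C D2 + Polynomial.X),
      Polynomial.C L1 * -Polynomial.C D1 - Polynomial.C L2 * (Polynomial.C D2 + Polynomial.X)]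
  have hP : ∀ i, (P i).natDegree ≤ 1 := by
    intro i
    fin_cases i <;> simp only [P, Fin.zero_eta, Fin.mk_one, Fin.reduceFinMk, Matrix.cons_val] <;>
      compute_degree <;> norm_num
  have hβ' : (aeval P β).natDegree ≤ 1 := by simpa using aeval_natDegree_le β hβ P hP
  have hF' : (aeval P F).natDegree ≤ 2 := by simpa using aeval_natDegree_le F hF2 P hP
  have hF0 : Polynomial.X ∣ aeval P F := by
    have e1 : (Polynomial.aeval (0 : R k)).comp (aeval P : S k →ₐ[R k] Polynomial (R k)) =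
        (Polynomial.aeval L3).comp
          (aeval (fun i => Polynomial.C (signedMinor (phi k) i) * Polynomial.X)) := by
      apply MvPolynomial.algHom_ext
      intro i
      have hi : i = 0 ∨ i = 1 ∨ i = 2 := by fin_cases i <;> simp
      rcases hi with rfl | rfl | rfl
      all_goals
        simp only [P, AlgHom.comp_apply, aeval_X, Matrix.cons_val, map_sub, map_mul, map_neg,
          map_add, Polynomial.aeval_C, Polynomial.aeval_X, Algebra.algebraMap_self,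
          RingHom.id_apply]
      · rw [hD1]; ring
      · rw [hD2]; ring
      · rw [hL1, hL2, hL3, hD1, hD2, minor0, minor1, minor2]
        ring
    have e2 := DFunLike.congr_fun e1 F
    rw [reesIdeal, RingHom.mem_ker] at hF
    rw [AlgHom.comp_apply, AlgHom.comp_apply, hF, map_zero] at e2
    rw [Polynomial.X_dvd_iff, Polynomial.coeff_zero_eq_eval_zero]
    simpa using e2
  obtain ⟨B, hB⟩ := hF0
  have hB' : B.natDegree ≤ 1 := by
    by_cases h0 : B = 0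
    · simp [h0]
    · rw [hB, Polynomial.natDegree_X_mul h0] at hF'
      omega
  have hL : aeval P (C (C l) * f k + C (C m) * g k) = 0 := by
    simp only [f, g, P, map_add, map_mul, map_pow, aeval_C, aeval_X, Matrix.cons_val,
      Polynomial.algebraMap_eq, hL1, hL2, hL3]
    ring
  have hH := key_id (Polynomial.C (X 0 : R k)) (Polynomial.C (X 1)) (Polynomial.C (X 2))
    (Polynomial.C (C l)) (Polynomial.C (C m)) (Polynomial.C D2 + Polynomial.X)
    (-Polynomial.C D1) (P 0) (P 1) (P 2) (by simp [P, hL3]) (by simp [P, hL3])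
    (by simp [P, hL1, hL2])
  obtain ⟨μ, hμ⟩ : ∃ L : R k, L = C l * X 1 ^ 3 + C m * X 2 ^ 3 := ⟨_, rfl⟩
  obtain ⟨A, hA⟩ : ∃ L : R k, L = C l * X 2 + C m * X 0 := ⟨_, rfl⟩
  obtain ⟨E, hE⟩ : ∃ L : R k, L = C l * X 1 ^ 1 + C m * X 2 ^ 1 := ⟨_, rfl⟩
  obtain ⟨ν, hν⟩ : ∃ L : R k, L = -(C l * X 1 ^ 3) := ⟨_, rfl⟩
  obtain ⟨ρ, hρ⟩ : ∃ L : R k, L = -(C l * X 0 ^ 2 * X 1) := ⟨_, rfl⟩
  have hH' : aeval P (H k) = Polynomial.X * (Polynomial.C (-(L3 * D1)) *
      (Polynomial.C (μ * A * D2 ^ 2 - A * ν * D2 * D1 + (μ * E + A * ρ) * D1 ^ 2) +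
        Polynomial.C (2 * μ * A * D2 - A * ν * D1) * Polynomial.X +
        Polynomial.C (μ * A) * Polynomial.X ^ 2)) := by
    have e1 : Polynomial.C (X 0 : R k) ^ 5 * Polynomial.C (X 1) ^ 5 -
        Polynomial.C (X 0) ^ 4 * Polynomial.C (X 1) ^ 2 * Polynomial.C (X 2) ^ 4 +
        Polynomial.C (X 1) ^ 9 * Polynomial.C (X 2) -
        Polynomial.C (X 1) ^ 7 * Polynomial.C (X 2) ^ 3 = Polynomial.C D1 := by
      simp [hD1, minor0]
    have e2 : -(Polynomial.C (X 0 : R k) ^ 7 * Polynomial.C (X 1) ^ 3) +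
        Polynomial.C (X 0) ^ 6 * Polynomial.C (X 2) ^ 4 -
        Polynomial.C (X 0) ^ 5 * Polynomial.C (X 1) ^ 5 -
        Polynomial.C (X 0) ^ 2 * Polynomial.C (X 1) ^ 7 * Polynomial.C (X 2) +
        Polynomial.C (X 0) ^ 2 * Polynomial.C (X 1) ^ 5 * Polynomial.C (X 2) ^ 3 -
        Polynomial.C (X 1) ^ 9 * Polynomial.C (X 2) = Polynomial.C D2 := by
      simp [hD2, minor1]
    rw [e1, e2] at hH
    simp only [H, map_add, map_sub, map_neg, map_mul, map_pow, aeval_C, aeval_X,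
      Polynomial.algebraMap_eq, hL3, hμ, hA, hE, hν, hρ, map_ofNat]
    rw [hH]
    ring
  have e' := congrArg (aeval P) e
  rw [map_add, map_mul, map_mul, map_mul, map_mul, hL, hH', hB, aeval_C, aeval_C,
    Polynomial.algebraMap_eq, Polynomial.eq_X_add_C_of_natDegree_le_one hβ',
    Polynomial.eq_X_add_C_of_natDegree_le_one hB'] at e'
  generalize (aeval P β).coeff 1 = b1 at e'
  generalize (aeval P β).coeff 0 = b0 at e'
  generalize B.coeff 1 = e2 at e'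
  generalize B.coeff 0 = e1 at e'
  obtain ⟨q0, q1, q2⟩ := quad_coeff (w * C c * -(L3 * D1))
    (μ * A * D2 ^ 2 - A * ν * D2 * D1 + (μ * E + A * ρ) * D1 ^ 2)
    (2 * μ * A * D2 - A * ν * D1) (μ * A) b0 b1 e1 e2 (by
      apply mul_left_cancel₀ (Polynomial.X_ne_zero (R := R k))
      rw [map_mul, map_mul]
      linear_combination e')
  have hK : w * C c * -(L3 * D1) ≠ 0 :=
    mul_ne_zero (mul_ne_zero hw (by simpa using hc)) (neg_ne_zero.2 (mul_ne_zero hL3ne hD1ne))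
  have hAp : Prime A := hA ▸ prime_lin l m h
  have hμd : ¬ A ∣ μ := by rw [hA, hμ]; exact not_dvd_lin l m h 3 (by norm_num)
  have hEd : ¬ A ∣ E := by rw [hA, hE]; exact not_dvd_lin l m h 1 (by norm_num)
  have hb1 : b1 ≠ 0 := by
    rintro rfl
    rw [zero_mul] at q2
    exact mul_ne_zero hK (mul_ne_zero (fun e : μ = 0 => hμd (by rw [e]; exact dvd_zero A)) hAp.ne_zero) q2
  apply eis (ν := ν) (ρ := ρ) hAp hμd hEd (b1 * D2 - b0) (-(b1 * D1))
    (neg_ne_zero.2 (mul_ne_zero hb1 hD1ne))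
  apply mul_left_cancel₀ hK
  linear_combination b1 ^ 2 * q0 - b0 * b1 * q1 + b0 ^ 2 * q2

end Pool.Agent.Lib.MP_2a35bd_al.ExB
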