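import Pool.Agent.Lib.MP_2a35bd_al.Basic
import Pool.Agent.Lib.MP_2a35bd_al.Q1Inv

/-!
The example with columns `(x²y³+y⁵, y⁵, x⁴z+y⁵)` and `(x²z³, y²z³, x⁵+y⁴z)`:
its Rees ideal is contained in `(f, g, h₁, H)`.
-/

namespace Pool.Agent.Lib.MP_2a35bd_al.ExB

open MvPolynomial

variable (k : Type*) [Field k]

noncomputable abbrev x : S k := C (X 0)
noncomputable abbrev y : S k := C (X 1)
noncomputable abbrev z : S k := C (X 2)
noncomputable abbrev t : S k := X 0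
noncomputable abbrev u : S k := X 1
noncomputable abbrev v : S k := X 2

noncomputable def phi : Matrix (Fin 3) (Fin 2) (R k) :=
  !![X 0 ^ 2 * X 1 ^ 3 + X 1 ^ 5, X 0 ^ 2 * X 2 ^ 3;
    X 1 ^ 5, X 1 ^ 2 * X 2 ^ 3;
    X 0 ^ 4 * X 2 + X 1 ^ 5, X 0 ^ 5 + X 1 ^ 4 * X 2]

noncomputable def f : S k :=
  (x k ^ 2 * y k ^ 3 + y k ^ 5) * t k + y k ^ 5 * u k + (x k ^ 4 * z k + y k ^ 5) * v k
noncomputable def g : S k :=
  x k ^ 2 * z k ^ 3 * t k + y k ^ 2 * z k ^ 3 * u k + (x k ^ 5 + y k ^ 4 * z k) * v k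
noncomputable def h1 : S k :=
  (y k ^ 3 * t k + x k ^ 2 * z k * v k) * (z k ^ 3 * u k + y k ^ 2 * z k * v k) -
    (y k ^ 3 * (t k + u k + v k)) * (z k ^ 3 * t k + x k ^ 3 * v k)
noncomputable def H : S k :=
  -(t k ^ 2 * (z k ^ 3 * y k * (t k + v k) - y k ^ 3 * z k * v k)) -
    u k ^ 2 * ((z k ^ 4 - x k * y k ^ 3) * v k) +
    (x k ^ 2 * t k - y k ^ 2 * u k) * (z k ^ 2 * v k ^ 2 - x k * y k * v k * (t k + v k))

variable {k}

lemma x_ne : x k ≠ 0 := (prime_CX 0).ne_zero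
lemma y_ne : y k ≠ 0 := (prime_CX 1).ne_zero
lemma z_ne : z k ≠ 0 := (prime_CX 2).ne_zero
lemma u_ne : u k ≠ 0 := (prime_T 1).ne_zero
lemma v_ne : v k ≠ 0 := (prime_T 2).ne_zero

lemma kill1 (i : Fin 3) (a : S k) :
    ∃ p, a = C (X i) * p + killS (fun j => decide (j = i)) (fun _ => false) a := by
  have := sub_killS_mem (fun j => decide (j = i)) (fun _ => false) (Ideal.span {C (X i)})
    (by intro j hj; obtain rfl : j = i := by simpa using hj
        exact Ideal.subset_span rfl)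
    (by intro j hj; simp at hj) a
  obtain ⟨p, hp⟩ := Ideal.mem_span_singleton'.1 this
  exact ⟨p, by rw [mul_comm, hp]; ring⟩

lemma killt (a : S k) : ∃ p, a = t k * p + killS (fun _ => false) ![true, false, false] a := by
  have := sub_killS_mem (fun _ => false) ![true, false, false] (Ideal.span {t k})
    (by intro j hj; simp at hj)
    (by intro i hi; fin_cases i <;> simp_all) a
  obtain ⟨p, hp⟩ := Ideal.mem_span_singleton'.1 this
  exact ⟨p, by rw [mul_comm, hp]; ring⟩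

/-- An element that survives some evaluation with `x = y = 0`. -/
def Out (b : S k) : Prop := ∃ c : Fin 3 → k, evS ![0, 0, (1 : k)] c b ≠ 0

lemma ev_kill (c : Fin 3 → k) (b : S k) :
    evS ![0, 0, (1 : k)] c (killS (fun j => decide (j = 0)) (fun _ => false) b) =
      evS ![0, 0, (1 : k)] c b := by
  obtain ⟨p, hp⟩ := kill1 0 b
  conv_rhs => rw [hp]
  simp

lemma aux_xy2 (a b p q : S k) (hb : Out b)
    (h : a * b = x k * p + y k ^ 2 * q) : ∃ r s, a = x k * r + y k ^ 2 * s := by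
  obtain ⟨r, hr⟩ := kill1 0 a
  obtain ⟨c, hc⟩ := hb
  have h' := congrArg (killS (fun j => decide (j = 0)) (fun _ => false)) h
  simp only [map_mul, map_add, map_pow, killS_C, killR_X] at h'
  simp at h'
  have hy : ¬ y k ∣ killS (fun j => decide (j = 0)) (fun _ => false) b :=
    not_dvd_of_ev (evS ![0, 0, (1 : k)] c) (by simp) (by rwa [ev_kill])
  obtain ⟨s, hs⟩ := (prime_CX 1).pow_dvd_of_dvd_mul_right 2 hy ⟨_, h'⟩
  exact ⟨r, s, by rw [← hs]; exact hr⟩

lemma reg2 (a b p q : S k) (hb : Out b) (h : a * b = x k ^ 2 * p + y k ^ 2 * q) :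
    ∃ r s, a = x k ^ 2 * r + y k ^ 2 * s := by
  obtain ⟨r, s, hrs⟩ := aux_xy2 a b (x k * p) q hb (by rw [h]; ring)
  have hd : x k ∣ y k ^ 2 * (q - s * b) :=
    ⟨r * b - x k * p, by rw [hrs] at h; linear_combination -h⟩
  obtain ⟨q', hq'⟩ := ((prime_CX 0).dvd_or_dvd hd).resolve_left
    (not_dvd_of_ev (evS (k := k) ![0, 1, (1 : k)] ![1, 1, 1]) (by simp) (by simp))
  have e : r * b = x k * p + y k ^ 2 * q' := by
    apply mul_left_cancel₀ (x_ne (k := k))
    rw [hrs] at h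
    linear_combination h + y k ^ 2 * hq'
  obtain ⟨r', s', hrs'⟩ := aux_xy2 r b p q' hb e
  exact ⟨r', s + x k * s', by rw [hrs, hrs']; ring⟩

lemma satz (a1 a2 F : S k) (h : a1 * f k + a2 * g k = z k * F) :
    ∃ b1 b2, F = b1 * f k + b2 * g k := by
  obtain ⟨r, hr⟩ := kill1 2 a1
  have h' := congrArg (killS (fun j => decide (j = 2)) (fun _ => false)) h
  simp only [f, g, map_mul, map_add, map_pow, killS_C, killS_X, killR_X] at h'
  simp at h'
  set b1 := killS (fun j => decide (j = 2)) (fun _ => false) a1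
  set b2 := killS (fun j => decide (j = 2)) (fun _ => false) a2
  have hx : x k ^ 5 ∣ b1 * (y k ^ 3 * (x k ^ 2 * t k + y k ^ 2 * (t k + u k + v k))) :=
    ⟨-(b2 * v k), by linear_combination h'⟩
  obtain ⟨p, hp⟩ := (prime_CX 0).pow_dvd_of_dvd_mul_right 5
    (not_dvd_of_ev (evS (k := k) ![0, 1, (1 : k)] ![1, 0, 0]) (by simp) (by simp)) hx
  have hv : v k ∣ p * (x k ^ 5 * (y k ^ 3 * (x k ^ 2 * t k + y k ^ 2 * (t k + u k + v k)))) :=
    ⟨-(b2 * x k ^ 5), by rw [hp] at h'; linear_combination h'⟩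
  obtain ⟨q, hq⟩ := ((prime_T 2).dvd_or_dvd hv).resolve_right
    (not_dvd_of_ev (evS (k := k) ![1, 1, (1 : k)] ![0, 1, 0]) (by simp) (by simp))
  rw [hp, hq] at hr
  have hz : z k ∣ (q * f k + a2) * g k :=
    ⟨F - (r - q * (z k ^ 2 * (x k ^ 2 * t k + y k ^ 2 * u k) + y k ^ 4 * v k)) * f k, by
      rw [hr] at h
      simp only [g] at h ⊢
      linear_combination h⟩
  obtain ⟨s, hs⟩ := ((prime_CX 2).dvd_or_dvd hz).resolve_right
    (not_dvd_of_ev (evS (k := k) ![1, 1, (0 : k)] ![0, 0, 1]) (by simp) (by simp [g]))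
  refine ⟨r - q * (z k ^ 2 * (x k ^ 2 * t k + y k ^ 2 * u k) + y k ^ 4 * v k), s, ?_⟩
  apply mul_left_cancel₀ (z_ne (k := k))
  rw [hr] at h
  have hs' : a2 = z k * s - q * f k := by rw [← hs]; ring
  rw [hs'] at h
  simp only [g] at h ⊢
  linear_combination -h

lemma step1 (a1 a2 F : S k) (h : a1 * f k + a2 * g k = y k * F) :
    ∃ b1 b2 p, F = b1 * f k + b2 * g k + p * y k * h1 k := by
  obtain ⟨r, hr⟩ := kill1 1 a2
  have h' := congrArg (killS (fun j => decide (j = 1)) (fun _ => false)) h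
  simp only [f, g, map_mul, map_add, map_pow, killS_C, killS_X, killR_X] at h'
  simp at h'
  set b1 := killS (fun j => decide (j = 1)) (fun _ => false) a1
  set b2 := killS (fun j => decide (j = 1)) (fun _ => false) a2
  have h2 : b1 * (x k ^ 2 * z k * v k) + b2 * (z k ^ 3 * t k + x k ^ 3 * v k) = 0 := by
    apply mul_left_cancel₀ (pow_ne_zero 2 (x_ne (k := k)))
    rw [mul_zero, ← h']; ring
  have hx : x k ^ 2 ∣ b2 * (z k ^ 3 * t k + x k ^ 3 * v k) :=
    ⟨-(b1 * z k * v k), by linear_combination h2⟩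
  obtain ⟨p1, hp1⟩ := (prime_CX 0).pow_dvd_of_dvd_mul_right 2
    (not_dvd_of_ev (evS (k := k) ![0, 1, (1 : k)] ![1, 0, 0]) (by simp) (by simp)) hx
  have hz : z k ∣ p1 * (x k ^ 2 * (z k ^ 3 * t k + x k ^ 3 * v k)) :=
    ⟨-(b1 * x k ^ 2 * v k), by rw [hp1] at h2; linear_combination h2⟩
  obtain ⟨p2, hp2⟩ := ((prime_CX 2).dvd_or_dvd hz).resolve_right
    (not_dvd_of_ev (evS (k := k) ![1, 1, (0 : k)] ![0, 0, 1]) (by simp) (by simp))
  have hv : v k ∣ p2 * (z k * x k ^ 2 * (z k ^ 3 * t k + x k ^ 3 * v k)) :=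
    ⟨-(b1 * x k ^ 2 * z k), by rw [hp1, hp2] at h2; linear_combination h2⟩
  obtain ⟨p, hp⟩ := ((prime_T 2).dvd_or_dvd hv).resolve_right
    (not_dvd_of_ev (evS (k := k) ![1, 1, (1 : k)] ![1, 0, 0]) (by simp) (by simp))
  rw [hp1, hp2, hp] at hr
  have hy : y k ∣ (a1 + p * (z k ^ 3 * t k + x k ^ 3 * v k)) * f k :=
    ⟨F - (r - p * y k ^ 2 * t k) * g k - p * y k * h1 k, by
      rw [hr] at h
      simp only [f, g, h1] at h ⊢
      linear_combination h⟩
  obtain ⟨s, hs⟩ := ((prime_CX 1).dvd_or_dvd hy).resolve_right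
    (not_dvd_of_ev (evS (k := k) ![1, 0, (1 : k)] ![0, 0, 1]) (by simp) (by simp [f]))
  refine ⟨s, r - p * y k ^ 2 * t k, p, ?_⟩
  apply mul_left_cancel₀ (y_ne (k := k))
  have hs' : a1 = y k * s - p * (z k ^ 3 * t k + x k ^ 3 * v k) := by rw [← hs]; ring
  rw [hr, hs'] at h
  simp only [f, g, h1] at h ⊢
  linear_combination -h

lemma step2 (a1 a2 F : S k) (h : a1 * f k + a2 * g k = y k ^ 2 * F) :
    ∃ b1 b2 b3, F = b1 * f k + b2 * g k + b3 * h1 k := by
  obtain ⟨b1, b2, p, e⟩ := step1 a1 a2 (y k * F) (by rw [h]; ring)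
  obtain ⟨c1, c2, q, e'⟩ := step1 b1 b2 (F - p * h1 k) (by linear_combination -e)
  exact ⟨c1, c2, p + q * y k, by linear_combination e'⟩

lemma step3 (a1 a2 a3 F : S k) (h : a1 * f k + a2 * g k + a3 * h1 k = y k ^ 2 * F) :
    ∃ b1 b2 b3 b4, F = b1 * f k + b2 * g k + b3 * h1 k + b4 * H k := by
  obtain ⟨p, hp⟩ := killt a3
  have h' := congrArg (killS (fun _ => false) ![true, false, false]) h
  simp only [f, g, h1, map_mul, map_add, map_sub, map_pow, killS_C, killS_X, killR_X] at h'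
  simp at h'
  set b1 := killS (fun _ => false) ![true, false, false] a1
  set b2 := killS (fun _ => false) ![true, false, false] a2
  set b3 := killS (fun _ => false) ![true, false, false] a3
  set G := killS (fun _ => false) ![true, false, false] F
  have hy : y k ^ 2 ∣ (x k ^ 2 * (b1 * z k + b2 * x k) + b3 * (z k ^ 4 * u k)) *
      (x k ^ 2 * v k) :=
    ⟨G - b1 * y k ^ 3 * (u k + v k) - b2 * (z k ^ 3 * u k + y k ^ 2 * z k * v k) -
      b3 * (x k ^ 2 * z k ^ 2 * v k ^ 2 - y k * (u k + v k) * x k ^ 3 * v k), by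
      linear_combination h'⟩
  obtain ⟨q, hq⟩ := (prime_CX 1).pow_dvd_of_dvd_mul_right 2
    (not_dvd_of_ev (evS (k := k) ![1, 0, (1 : k)] ![1, 1, 1]) (by simp) (by simp)) hy
  obtain ⟨r, s, hrs⟩ := reg2 b3 (z k ^ 4 * u k) (-(b1 * z k + b2 * x k)) q
    ⟨![1, 1, 1], by simp⟩ (by linear_combination hq)
  rw [hrs] at hp
  obtain ⟨c1, c2, c3, e⟩ := step2
    (a1 - p * x k * u k * v k + r * (z k ^ 3 * u k + y k ^ 2 * z k * v k))
    (a2 + p * z k * u k * v k - r * (y k ^ 3 * (t k + u k + v k)))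
    (F - p * H k - s * h1 k) (by
      rw [hp] at h
      simp only [f, g, h1, H] at h ⊢
      linear_combination h)
  exact ⟨c1, c2, c3 + s, p, by linear_combination e⟩

lemma step4 (a1 a2 a3 a4 F : S k)
    (h : a1 * f k + a2 * g k + a3 * h1 k + a4 * H k = y k ^ 2 * F) :
    ∃ b1 b2 b3 b4, F = b1 * f k + b2 * g k + b3 * h1 k + b4 * H k := by
  obtain ⟨r, s, hrs⟩ := reg2 a4 (H k)
    (-(a1 * (y k ^ 3 * t k + x k ^ 2 * z k * v k) + a2 * (z k ^ 3 * t k + x k ^ 3 * v k) +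
      a3 * (z k * v k * (z k ^ 3 * u k + y k ^ 2 * z k * v k))))
    (F - a1 * (y k ^ 3 * (t k + u k + v k)) - a2 * (z k ^ 3 * u k + y k ^ 2 * z k * v k) -
      a3 * (y k * t k * (z k ^ 3 * u k + y k ^ 2 * z k * v k) -
        y k * (t k + u k + v k) * (z k ^ 3 * t k + x k ^ 3 * v k)))
    ⟨![0, 1, 1], by simp [H]⟩ (by
      simp only [f, g, h1] at h
      linear_combination h)
  obtain ⟨c1, c2, c3, c4, e⟩ := step3 (a1 + r * z k * t k * v k)
    (a2 - r * (y k * t k ^ 2 + y k * t k * v k)) (a3 - r * u k) (F - s * H k) (by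
      rw [hrs] at h
      simp only [f, g, h1, H] at h ⊢
      linear_combination h)
  exact ⟨c1, c2, c3, c4 + s, by linear_combination e⟩

lemma sat_y (n : ℕ) (a1 a2 a3 a4 F : S k)
    (h : a1 * f k + a2 * g k + a3 * h1 k + a4 * H k = (y k ^ 2) ^ n * F) :
    ∃ b1 b2 b3 b4, F = b1 * f k + b2 * g k + b3 * h1 k + b4 * H k := by
  induction n generalizing a1 a2 a3 a4 with
  | zero => exact ⟨a1, a2, a3, a4, by simpa using h.symm⟩
  | succ n ih =>
    obtain ⟨b1, b2, b3, b4, e⟩ := step4 a1 a2 a3 a4 ((y k ^ 2) ^ n * F) (by rw [h]; ring)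
    exact ih b1 b2 b3 b4 e.symm

lemma sat_z (n : ℕ) (a1 a2 F : S k) (h : a1 * f k + a2 * g k = z k ^ n * F) :
    ∃ b1 b2, F = b1 * f k + b2 * g k := by
  induction n generalizing a1 a2 with
  | zero => exact ⟨a1, a2, by simpa using h.symm⟩
  | succ n ih =>
    obtain ⟨b1, b2, e⟩ := satz a1 a2 (z k ^ n * F) (by rw [h]; ring)
    exact ih b1 b2 e.symm

lemma minor0 : signedMinor (phi k) 0 =
    X 0 ^ 5 * X 1 ^ 5 - X 0 ^ 4 * X 1 ^ 2 * X 2 ^ 4 + X 1 ^ 9 * X 2 - X 1 ^ 7 * X 2 ^ 3 := by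
  simp [signedMinor, phi, Matrix.det_fin_two]; ring

lemma minor1 : signedMinor (phi k) 1 =
    -(X 0 ^ 7 * X 1 ^ 3) + X 0 ^ 6 * X 2 ^ 4 - X 0 ^ 5 * X 1 ^ 5 - X 0 ^ 2 * X 1 ^ 7 * X 2 +
      X 0 ^ 2 * X 1 ^ 5 * X 2 ^ 3 - X 1 ^ 9 * X 2 := by
  simp [signedMinor, phi, Matrix.det_fin_two, Fin.succAbove]; ring

lemma minor2 : signedMinor (phi k) 2 = X 1 ^ 7 * X 2 ^ 3 := by
  simp [signedMinor, phi, Matrix.det_fin_two, Fin.succAbove]; ring

lemma syz0 : syzForm (phi k) 0 = f k := by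
  simp [syzForm, phi, Fin.sum_univ_three, f]

lemma syz1 : syzForm (phi k) 1 = g k := by
  simp [syzForm, phi, Fin.sum_univ_three, g]

lemma H_mem : H k ∈ reesIdeal (phi k) := by
  simp only [reesIdeal, RingHom.mem_ker, H, map_add, map_mul,
    map_sub, map_pow, map_neg, aeval_X, aeval_C, minor0, minor1, minor2,
    Polynomial.algebraMap_eq]
  ring

lemma exists_reduction (F : S k) : ∃ (n : ℕ) (G : Polynomial (R k)),
    (y k ^ 7 * z k ^ 3) ^ n * F - Polynomial.aeval (v k) G ∈ Ideal.span {f k, g k} := by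
  induction F using MvPolynomial.induction_on with
  | C a => exact ⟨0, Polynomial.C a, by simp⟩
  | add p q hp hq =>
    obtain ⟨n, G, hG⟩ := hp
    obtain ⟨m, G', hG'⟩ := hq
    refine ⟨n + m, Polynomial.C ((X 1 ^ 7 * X 2 ^ 3) ^ m) * G +
      Polynomial.C ((X 1 ^ 7 * X 2 ^ 3) ^ n) * G', ?_⟩
    have := add_mem (Ideal.mul_mem_left _ ((y k ^ 7 * z k ^ 3) ^ m) hG)
      (Ideal.mul_mem_left _ ((y k ^ 7 * z k ^ 3) ^ n) hG')
    convert this using 1
    simp only [map_add, map_mul, map_pow, Polynomial.aeval_C, algebraMap_eq]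
    generalize y k ^ 7 * z k ^ 3 = D
    ring
  | mul_X p i hp =>
    obtain ⟨n, G, hG⟩ := hp
    have key : y k ^ 7 * z k ^ 3 * X i - C (signedMinor (phi k) i) * v k ∈
        Ideal.span {f k, g k} := by
      have hi : i = 0 ∨ i = 1 ∨ i = 2 := by fin_cases i <;> simp
      rcases hi with rfl | rfl | rfl
      · refine Ideal.mem_span_pair.2 ⟨y k ^ 2 * z k ^ 3, -y k ^ 5, ?_⟩
        simp only [minor0, f, g, map_add, map_sub, map_mul, map_pow]
        ring
      · refine Ideal.mem_span_pair.2 ⟨-(x k ^ 2 * z k ^ 3), x k ^ 2 * y k ^ 3 + y k ^ 5, ?_⟩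
        simp only [minor1, f, g, map_add, map_sub, map_mul, map_pow, map_neg]
        ring
      · simp [minor2]
    refine ⟨n + 1, G * (Polynomial.C (signedMinor (phi k) i) * Polynomial.X), ?_⟩
    have := add_mem (Ideal.mul_mem_left _ (y k ^ 7 * z k ^ 3 * X i) hG)
      (Ideal.mul_mem_left _ (Polynomial.aeval (v k) G) key)
    convert this using 1
    simp only [map_mul, Polynomial.aeval_C, Polynomial.aeval_X, algebraMap_eq]
    generalize y k ^ 7 * z k ^ 3 = D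
    ring

theorem rees_le (F : S k) (hF : F ∈ reesIdeal (phi k)) :
    ∃ b1 b2 b3 b4, F = b1 * f k + b2 * g k + b3 * h1 k + b4 * H k := by
  obtain ⟨n, G, hG⟩ := exists_reduction F
  have hle : Ideal.span {f k, g k} ≤ reesIdeal (phi k) := by
    rw [Ideal.span_le]
    rintro _ (rfl | rfl)
    · exact syz0 (k := k) ▸ syz_mem _ 0
    · exact syz1 (k := k) ▸ syz_mem _ 1
  have h1' : Polynomial.aeval (v k) G ∈ reesIdeal (phi k) := by
    have := sub_mem (Ideal.mul_mem_left _ ((y k ^ 7 * z k ^ 3) ^ n) hF) (hle hG)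
    simpa using this
  rw [reesIdeal, RingHom.mem_ker, ← Polynomial.aeval_algHom_apply, aeval_X, minor2,
    Polynomial.aeval_def] at h1'
  have h2 : G.comp (Polynomial.C (X 1 ^ 7 * X 2 ^ 3 : R k) * Polynomial.X) = 0 := h1'
  rw [Polynomial.comp_C_mul_X_eq_zero_iff
    (mem_nonZeroDivisors_of_ne_zero (by simp))] at h2
  rw [h2, map_zero, sub_zero] at hG
  obtain ⟨a1, a2, e⟩ := Ideal.mem_span_pair.1 hG
  obtain ⟨b1, b2, e'⟩ := sat_z (3 * n) a1 a2 (y k ^ (7 * n) * F) (by rw [e]; ring)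
  exact sat_y (7 * n) (y k ^ (7 * n) * b1) (y k ^ (7 * n) * b2) 0 0 F (by
    rw [show (y k ^ 2) ^ (7 * n) * F = y k ^ (7 * n) * (y k ^ (7 * n) * F) by ring, e']
    ring)

end Pool.Agent.Lib.MP_2a35bd_al.ExB
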